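import Pool.Agent.Helper59.HP.Orb

/-! Sequences with increments tending to a non exceptional rate. -/

open Filter Topology MeasureTheory
open scoped NNReal ENNReal

namespace Pool.Agent.Helper59.HP

open Pool.Agent.Helper32.HP (IsQ JJ SQ)

variable {Ω : Type*} [MeasurableSpace Ω] {μ : Measure Ω} {T : Ω → Ω} {q : Ω → ℝ → ℝ} {Λ A : ℝ}

/-- Cesàro: a sum is bounded by averages over windows. -/
theorem cesaro {s : ℕ → ℝ} (hs : ∀ n, 0 ≤ s n) {M : ℝ} (hM : ∀ n, s n ≤ M) (L N : ℕ) :
    L * ∑ n ∈ Finset.range N, s n ≤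
      ∑ n ∈ Finset.range N, ∑ i ∈ Finset.range L, s (n + i) + L * (L * M) := by
  have hM0 : 0 ≤ M := (hs 0).trans (hM 0)
  rw [Finset.sum_comm]
  have h1 : ∀ i ∈ Finset.range L, ∑ n ∈ Finset.range N, s n ≤
      ∑ n ∈ Finset.range N, s (n + i) + L * M := by
    intro i hi
    have h2 : ∑ n ∈ Finset.range N, s n ≤ ∑ n ∈ Finset.range (i + N), s n :=
      Finset.sum_le_sum_of_subset_of_nonneg (Finset.range_mono (Nat.le_add_left _ _))
        fun n _ _ => hs n
    rw [Finset.sum_range_add] at h2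
    have h3 : ∑ n ∈ Finset.range i, s n ≤ L * M := by
      calc ∑ n ∈ Finset.range i, s n ≤ ∑ n ∈ Finset.range i, M := Finset.sum_le_sum fun n _ => hM n
        _ = i * M := by rw [Finset.sum_const, Finset.card_range, nsmul_eq_mul]
        _ ≤ L * M := by
          have : (i:ℝ) ≤ L := by exact_mod_cast (Finset.mem_range.1 hi).le
          gcongr
    have h4 : ∑ n ∈ Finset.range N, s (i + n) = ∑ n ∈ Finset.range N, s (n + i) :=
      Finset.sum_congr rfl fun n _ => by rw [add_comm]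
    linarith
  have h5 := Finset.sum_le_sum h1
  rw [Finset.sum_const, Finset.card_range, nsmul_eq_mul, Finset.sum_add_distrib, Finset.sum_const,
    Finset.card_range, nsmul_eq_mul] at h5
  exact h5

/-- fibres of the integer parts. -/
theorem fibre {y : ℕ → ℝ} {α : ℝ} (hα : 0 < α) {n0 : ℕ}
    (hy : ∀ n, n0 ≤ n → α / 2 ≤ y (n + 1) - y n) {b : ℕ → ℝ} (hb : ∀ j, 0 ≤ b j) {B : ℝ} {N J : ℕ}
    (hJ : ∀ n, n < N → ⌊y n - B⌋₊ < J) (h0 : ∀ n, n0 ≤ n → 0 ≤ y n - B) :
    ∑ n ∈ Finset.Ico n0 N, b ⌊y n - B⌋₊ ≤ (2 / α + 1) * ∑ j ∈ Finset.range J, b j := by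
  classical
  have hinc : ∀ n m, n0 ≤ n → n ≤ m → (m - n : ℝ) * (α / 2) ≤ y m - y n := by
    intro n m hn hm
    induction m, hm using Nat.le_induction with
    | base => simp
    | succ m hm ih =>
      have := hy m (hn.trans hm)
      push_cast
      linarith
  rw [Finset.sum_comp b (fun n => ⌊y n - B⌋₊)]
  have hcard : ∀ j, ((((Finset.Ico n0 N).filter fun n => ⌊y n - B⌋₊ = j).card : ℕ) : ℝ) ≤
      2 / α + 1 := by
    intro j
    set F := (Finset.Ico n0 N).filter fun n => ⌊y n - B⌋₊ = j with hF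
    rcases F.eq_empty_or_nonempty with h | h
    · rw [h]; simp; positivity
    · have hmin := F.min'_mem h
      set n1 := F.min' h with hn1
      have h1 : F ⊆ Finset.Icc n1 (n1 + ⌊2 / α⌋₊) := by
        intro n hn
        have hle : n1 ≤ n := F.min'_le n hn
        rw [Finset.mem_Icc]
        refine ⟨hle, ?_⟩
        rw [hF, Finset.mem_filter, Finset.mem_Ico] at hmin hn
        have h2 := hinc n1 n hmin.1.1 hle
        have h3 := Nat.lt_floor_add_one (y n - B)
        have h4 := Nat.floor_le (h0 n1 hmin.1.1)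
        rw [hn.2] at h3
        rw [hmin.2] at h4
        have h5 : (n - n1 : ℝ) * (α / 2) < 1 := by linarith
        have h6 : (n - n1 : ℝ) < 2 / α := by
          rw [lt_div_iff₀ hα]; linarith
        have h7 : n - n1 ≤ ⌊2 / α⌋₊ := by
          apply Nat.le_floor
          rw [Nat.cast_sub hle]
          exact h6.le
        omega
      have h2 := Finset.card_le_card h1
      rw [Nat.card_Icc] at h2
      have h3 : n1 + ⌊2 / α⌋₊ + 1 - n1 = ⌊2 / α⌋₊ + 1 := by omega
      rw [h3] at h2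
      have h4 := Nat.floor_le (show 0 ≤ 2 / α by positivity)
      have h5 : ((F.card : ℕ) : ℝ) ≤ ⌊2 / α⌋₊ + 1 := by exact_mod_cast h2
      linarith
  calc ∑ j ∈ (Finset.Ico n0 N).image (fun n => ⌊y n - B⌋₊),
        ((Finset.Ico n0 N).filter fun n => ⌊y n - B⌋₊ = j).card • b j
      ≤ ∑ j ∈ (Finset.Ico n0 N).image (fun n => ⌊y n - B⌋₊), (2 / α + 1) * b j := by
        refine Finset.sum_le_sum fun j _ => ?_
        rw [nsmul_eq_mul]
        exact mul_le_mul_of_nonneg_right (hcard j) (hb j)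
    _ ≤ ∑ j ∈ Finset.range J, (2 / α + 1) * b j := by
        apply Finset.sum_le_sum_of_subset_of_nonneg
        · intro j hj
          rw [Finset.mem_image] at hj
          obtain ⟨n, hn, rfl⟩ := hj
          rw [Finset.mem_range]
          exact hJ n (Finset.mem_Ico.1 hn).2
        · intro j _ _
          have := hb j
          positivity
    _ = _ := by rw [← Finset.mul_sum]

/-- bounds for the sequence. -/
theorem seq_bounds {y : ℕ → ℝ} {α : ℝ} (hα : 0 < α)
    (hy : Tendsto (fun n : ℕ => y (n + 1) - y n) atTop (𝓝 α)) :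
    (∃ C0 : ℝ, ∀ n, y n ≤ C0 + (α + 1) * n) ∧ Tendsto y atTop atTop := by
  have h1 : ∀ᶠ n in atTop, y (n + 1) - y n < α + 1 :=
    hy.eventually (gt_mem_nhds (by linarith))
  have h2 : ∀ᶠ n in atTop, α / 2 < y (n + 1) - y n :=
    hy.eventually (lt_mem_nhds (by linarith))
  obtain ⟨n0, hn0⟩ := eventually_atTop.1 (h1.and h2)
  constructor
  · set C0 := ∑ n ∈ Finset.range (n0 + 1), |y n| with hC0
    refine ⟨C0, fun n => ?_⟩
    have hsmall : ∀ n, n ≤ n0 → y n ≤ C0 := by
      intro n hn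
      refine (le_abs_self _).trans ?_
      exact Finset.single_le_sum (f := fun n => |y n|) (fun i _ => abs_nonneg _)
        (Finset.mem_range.2 (Nat.lt_succ_of_le hn))
    rcases le_total n n0 with h | h
    · have : 0 ≤ (α + 1) * n := by positivity
      linarith [hsmall n h]
    · induction n, h using Nat.le_induction with
      | base =>
        have : 0 ≤ (α + 1) * n0 := by positivity
        linarith [hsmall n0 le_rfl]
      | succ n hn ih =>
        have := (hn0 n hn).1
        push_cast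
        linarith
  · have h3 : ∀ n, n0 ≤ n → y n0 + (n - n0 : ℝ) * (α / 2) ≤ y n := by
      intro n hn
      induction n, hn using Nat.le_induction with
      | base => simp
      | succ n hn ih =>
        have := (hn0 n hn).2
        push_cast
        linarith
    have h4 : Tendsto (fun n : ℕ => y n0 + (n - n0 : ℝ) * (α / 2)) atTop atTop := by
      apply tendsto_atTop_add_const_left
      apply Tendsto.atTop_mul_const (by positivity)
      exact tendsto_atTop_add_const_right _ _ tendsto_natCast_atTop_atTop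
    exact tendsto_atTop_mono' _ (eventually_atTop.2 ⟨n0, h3⟩) h4

/-- drift of the sequence from the arithmetic progression. -/
theorem drift {y : ℕ → ℝ} {α η : ℝ} {n0 : ℕ} (hy : ∀ n, n0 ≤ n → |y (n + 1) - y n - α| ≤ η)
    (n : ℕ) (hn : n0 ≤ n) (i : ℕ) : |y (n + i) - (y n + i * α)| ≤ i * η := by
  induction i with
  | zero => simp
  | succ i ih =>
    have h1 := hy (n + i) (by omega)
    have h2 : y (n + (i + 1)) - (y n + ((i + 1 : ℕ) : ℝ) * α) =
        (y (n + i) - (y n + i * α)) + (y (n + i + 1) - y (n + i) - α) := by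
      rw [← add_assoc]; push_cast; ring
    rw [h2]
    refine (abs_add_le _ _).trans ?_
    push_cast
    linarith

theorem free_pos [IsProbabilityMeasure μ] (hT : Ergodic T μ) (hA : 0 ≤ A) (hΛ : 0 ≤ Λ)
    (hq : IsQ q Λ A) :
    ∃ E : Set ℝ, E.Countable ∧ ∀ᵐ ω ∂μ, ∀ α : ℝ, 0 < α → α ∉ E → ∀ y : ℕ → ℝ,
      Tendsto (fun n : ℕ => y (n + 1) - y n) atTop (𝓝 α) →
        ∀ ε : ℝ, 0 < ε → ∀ᶠ N : ℕ in atTop,
          ∑ n ∈ Finset.range N, SQ T q ω (y n) ≤ N * (JJ μ q A + ε) := by
  obtain ⟨S, hS1, hS2⟩ := tm_mean hT hΛ hA hq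
  have hIA := JJ_bd (μ := μ) hA hq
  refine ⟨(fun p : ℤ × ℝ => (p.1 : ℝ) / p.2) '' (Set.univ ×ˢ S),
    (Set.countable_univ.prod hS1).image _, ?_⟩
  filter_upwards [tm_birk hT hΛ hA hq] with w hw α hα hαE y hy ε hε
  set I := JJ μ q A with hI
  have hgood : ∀ m : ℤ, (m:ℝ) / α ∉ S ∨ (m:ℝ) / α = 0 := by
    intro m
    by_cases hm : (m:ℝ) / α = 0
    · exact Or.inr hm
    · left
      intro hmS
      apply hαE
      refine ⟨(m, (m:ℝ) / α), ⟨Set.mem_univ _, hmS⟩, ?_⟩
      simp only
      have : (m:ℝ) ≠ 0 := fun h => hm (by rw [h, zero_div])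
      field_simp
  -- constants
  obtain ⟨ε1, hε1, hε1'⟩ : ∃ ε1 : ℝ, 0 < ε1 ∧ α * ε1 ≤ ε / 8 := ⟨ε / (8 * α), by positivity, by
    field_simp; exact le_refl _⟩
  obtain ⟨F, a, ha0, hF⟩ := av_bound (μ := μ) (T := T) hΛ hA hq hα hε1
  set D := 2 * (A + 1) * Λ with hD
  have hD0 : 0 ≤ D := by positivity
  set W := (α + A + 2) * (2 / α + 1) * (α + 1) with hW
  have hW0 : 0 < W := by positivity
  -- mean of the error
  have hEB : Tendsto (fun K : ℕ => ∑ m ∈ F, a m * ∫ w, tm μ T q A (m / α) K w ∂μ) atTop (𝓝 0) := by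
    have : Tendsto (fun K : ℕ => ∑ m ∈ F, a m * ∫ w, tm μ T q A (m / α) K w ∂μ) atTop
        (𝓝 (∑ m ∈ F, a m * 0)) :=
      tendsto_finsetSum _ fun m _ => (hS2 _ (hgood m)).const_mul _
    simpa using this
  have hKt : Tendsto (fun L : ℕ => ⌈A + 1 + L * α⌉₊) atTop atTop := by
    apply tendsto_nat_ceil_atTop.comp
    apply tendsto_atTop_add_const_left
    exact tendsto_natCast_atTop_atTop.atTop_mul_const hα
  have hev1 : ∀ᶠ L : ℕ in atTop, ∑ m ∈ F, a m * ∫ w, tm μ T q A (m / α) ⌈A + 1 + L * α⌉₊ w ∂μ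
      < ε / (16 * W) := (hEB.comp hKt).eventually (gt_mem_nhds (by positivity))
  have hev2 : ∀ᶠ L : ℕ in atTop, (A + 2) * (|I| / α + ε1) * (8 / ε) ≤ L :=
    tendsto_natCast_atTop_atTop.eventually_ge_atTop _
  obtain ⟨L, hL1, hL2, hL3⟩ := (hev1.and (hev2.and (eventually_gt_atTop 0))).exists
  set K := ⌈A + 1 + L * α⌉₊ with hK
  have hL0 : (0:ℝ) < L := by exact_mod_cast hL3
  have hK1 : A + 1 + L * α ≤ K := Nat.le_ceil _
  have hK2 : (K:ℝ) ≤ A + 2 + L * α := by
    have := Nat.ceil_lt_add_one (show 0 ≤ A + 1 + L * α by positivity)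
    linarith
  have hK0 : 0 < K := by
    have : (0:ℝ) < K := by
      have : 0 < A + 1 + L * α := by positivity
      linarith
    exact_mod_cast this
  have hKr : (0:ℝ) < K := by exact_mod_cast hK0
  set Bf : Ω → ℝ := fun w => ∑ m ∈ F, a m * tm μ T q A (m / α) K w with hBf
  have hBf0 : ∀ w, 0 ≤ Bf w := fun w => Finset.sum_nonneg fun m _ =>
    mul_nonneg (ha0 m) (norm_nonneg _)
  -- the ergodic bound for the error
  have hBerg : ∀ᶠ J : ℕ in atTop, ∑ j ∈ Finset.range J, Bf (T^[j] w) ≤ J * (ε / (8 * W)) := by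
    obtain ⟨ρ, hρ, hρ'⟩ : ∃ ρ : ℝ, 0 < ρ ∧ (∑ m ∈ F, a m) * ρ ≤ ε / (16 * W) := by
      have h0 : 0 ≤ ∑ m ∈ F, a m := Finset.sum_nonneg fun m _ => ha0 m
      refine ⟨ε / (16 * W) / ((∑ m ∈ F, a m) + 1), by positivity, ?_⟩
      rw [mul_div_assoc', div_le_iff₀ (by positivity)]
      have : 0 < ε / (16 * W) := by positivity
      nlinarith
    have h1 : ∀ᶠ J : ℕ in atTop, ∀ m ∈ F, ∑ j ∈ Finset.range J, tm μ T q A (m / α) K (T^[j] w) ≤
        J * ((∫ w, tm μ T q A (m / α) K w ∂μ) + ρ) := by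
      rw [Filter.eventually_all_finset]
      intro m _
      exact hw K (m / α) ρ hρ
    filter_upwards [h1] with J hJ
    have h2 : ∑ j ∈ Finset.range J, Bf (T^[j] w) =
        ∑ m ∈ F, a m * ∑ j ∈ Finset.range J, tm μ T q A (m / α) K (T^[j] w) := by
      simp only [hBf]
      rw [Finset.sum_comm]
      exact Finset.sum_congr rfl fun m _ => by rw [Finset.mul_sum]
    rw [h2]
    calc ∑ m ∈ F, a m * ∑ j ∈ Finset.range J, tm μ T q A (m / α) K (T^[j] w)
        ≤ ∑ m ∈ F, a m * (J * ((∫ w, tm μ T q A (m / α) K w ∂μ) + ρ)) :=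
          Finset.sum_le_sum fun m hm => mul_le_mul_of_nonneg_left (hJ m hm) (ha0 m)
      _ = J * ((∑ m ∈ F, a m * ∫ w, tm μ T q A (m / α) K w ∂μ) + (∑ m ∈ F, a m) * ρ) := by
          rw [Finset.sum_mul, ← Finset.sum_add_distrib, Finset.mul_sum]
          exact Finset.sum_congr rfl fun m _ => by ring
      _ ≤ J * (ε / (8 * W)) := by
          have : ε / (8 * W) = ε / (16 * W) + ε / (16 * W) := by field_simp; ring
          rw [this]
          gcongr
  obtain ⟨⟨C0, hC0⟩, hyt⟩ := seq_bounds hα hy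
  -- the threshold
  obtain ⟨η, hη, hη'⟩ : ∃ η : ℝ, 0 < η ∧ L * (D * η) ≤ ε / 8 := by
    refine ⟨ε / (8 * (L * D + 1)), by positivity, ?_⟩
    rw [mul_div_assoc', mul_div_assoc', div_le_div_iff₀ (by positivity) (by positivity)]
    nlinarith [mul_nonneg hL0.le hD0]
  have hev3 : ∀ᶠ n : ℕ in atTop, |y (n + 1) - y n - α| ≤ min η (α / 2) := by
    have h1 : Tendsto (fun n : ℕ => |y (n + 1) - y n - α|) atTop (𝓝 0) := by
      have := (hy.sub_const α).abs
      simpa using this
    exact (h1.eventually (gt_mem_nhds (show 0 < min η (α / 2) by positivity))).mono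
      fun _ h => h.le
  obtain ⟨n0, hn0⟩ := eventually_atTop.1 (hev3.and (hyt.eventually_ge_atTop A))
  have hdr : ∀ n, n0 ≤ n → |y (n + 1) - y n - α| ≤ η := fun n hn =>
    (hn0 n hn).1.trans (min_le_left _ _)
  have hinc : ∀ n, n0 ≤ n → α / 2 ≤ y (n + 1) - y n := fun n hn => by
    have := (hn0 n hn).1.trans (min_le_right _ _)
    rw [abs_le] at this
    linarith [this.1]
  -- pointwise block bound
  have hblock : ∀ n, n0 ≤ n → ∑ i ∈ Finset.range L, SQ T q w (y (n + i)) ≤
      K * (I / α + ε1) + K * Bf (T^[⌊y n - A⌋₊] w) + L * (ε / 8) := by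
    intro n hn
    have h1 : ∑ i ∈ Finset.range L, SQ T q w (y (n + i)) ≤
        ∑ i ∈ Finset.range L, (SQ T q w (y n + i * α) + ε / 8) := by
      refine Finset.sum_le_sum fun i hi => ?_
      have h2 := SQ_lip (T := T) hA hΛ hq w (y (n + i)) (y n + i * α)
      have h3 := drift hdr n hn i
      have h4 : (i:ℝ) ≤ L := by exact_mod_cast (Finset.mem_range.1 hi).le
      have h5 : D * |y (n + i) - (y n + i * α)| ≤ ε / 8 := by
        calc D * |y (n + i) - (y n + i * α)| ≤ D * (L * η) := by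
              gcongr
              exact h3.trans (by gcongr)
          _ = L * (D * η) := by ring
          _ ≤ ε / 8 := hη'
      have h6 := (abs_le.1 h2).2
      rw [← hD] at h6
      linarith
    rw [Finset.sum_add_distrib, Finset.sum_const, Finset.card_range, nsmul_eq_mul] at h1
    have h2 := block_y (T := T) hq hα w (hn0 n hn).2 hK1 hK0
    have h3 := hF K (T^[⌊y n - A⌋₊] w) ((y n - ⌊y n - A⌋₊) / α) hK0
    have h4 := mul_le_mul_of_nonneg_left h3 hKr.le
    have h5 : (K:ℝ) * (I / α + ε1 + ∑ m ∈ F, a m * tm μ T q A (m / α) K (T^[⌊y n - A⌋₊] w)) =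
        K * (I / α + ε1) + K * Bf (T^[⌊y n - A⌋₊] w) := by
      simp only [hBf]; ring
    linarith
  -- main estimate
  have hKI : (K:ℝ) * (I / α + ε1) ≤ L * I + L * (ε / 8) + L * (ε / 8) := by
    have hx : I / α + ε1 ≤ |I| / α + ε1 := by
      gcongr; exact le_abs_self _
    have h1 : (A + 2) * (|I| / α + ε1) ≤ L * (ε / 8) := by
      have := mul_le_mul_of_nonneg_right hL2 (show 0 ≤ ε / 8 by positivity)
      calc (A + 2) * (|I| / α + ε1) = (A + 2) * (|I| / α + ε1) * (8 / ε) * (ε / 8) := by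
            field_simp
        _ ≤ L * (ε / 8) := this
    have hI0 : 0 ≤ I := by
      rw [hI]; unfold JJ
      refine integral_nonneg fun w => ?_
      exact intervalIntegral.integral_nonneg hA fun u _ => hq.nn _ _
    have h2 : 0 ≤ I / α + ε1 := by positivity
    have h3 : (K:ℝ) * (I / α + ε1) ≤ (A + 2 + L * α) * (I / α + ε1) := by gcongr
    have h4 : (A + 2 + L * α) * (I / α + ε1) = (A + 2) * (I / α + ε1) + (L * I + L * (α * ε1)) := by
      field_simp
    have h5 : (A + 2) * (I / α + ε1) ≤ (A + 2) * (|I| / α + ε1) := by gcongr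
    have h6 : L * (α * ε1) ≤ L * (ε / 8) := by gcongr
    linarith
  have hKL : (K:ℝ) ≤ L * (α + A + 2) := by
    have : (1:ℝ) ≤ L := by exact_mod_cast hL3
    nlinarith
  -- choose the final threshold
  set Cc : ℝ := n0 * (L * (A + 1)) + L * (L * (A + 1)) with hCc
  have hJt : Tendsto (fun N : ℕ => ⌊C0 + (α + 1) * N⌋₊ + 1) atTop atTop := by
    apply (tendsto_add_atTop_nat 1).comp
    apply tendsto_nat_floor_atTop.comp
    apply tendsto_atTop_add_const_left
    exact tendsto_natCast_atTop_atTop.const_mul_atTop (by positivity)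
  have hev4 := hJt.eventually hBerg
  have hev5 : ∀ᶠ N : ℕ in atTop, (Cc + K * ((2 / α + 1) * ((|C0| + |A| + 3) * (ε / (8 * W))))) *
      (4 / (ε * L)) ≤ N := tendsto_natCast_atTop_atTop.eventually_ge_atTop _
  filter_upwards [hev4, hev5, eventually_ge_atTop n0] with N hN4 hN5 hN6
  set J := ⌊C0 + (α + 1) * N⌋₊ + 1 with hJ
  have hNr : (0:ℝ) ≤ N := Nat.cast_nonneg N
  have hJ1 : (J:ℝ) ≤ |C0| + |A| + 3 + (α + 1) * N := by
    rw [hJ]
    push_cast
    have h1 : (⌊C0 + (α + 1) * N⌋₊ : ℝ) ≤ |C0| + (α + 1) * N := by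
      refine (Nat.cast_le.2 (Nat.floor_mono (show C0 + (α + 1) * N ≤ |C0| + (α + 1) * N by
        linarith [le_abs_self C0]))).trans (Nat.floor_le (by positivity))
    linarith [abs_nonneg A]
  have hfib := fibre (B := A) hα hinc (b := fun j => Bf (T^[j] w)) (fun j => hBf0 _)
    (N := N) (J := J) (fun n hn => by
      have h1 : y n - A ≤ C0 + (α + 1) * N := by
        have h2 := hC0 n
        have h3 : (n:ℝ) ≤ N := by exact_mod_cast hn.le
        have h4 : (α + 1) * n ≤ (α + 1) * N := by gcongr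
        linarith
      have h5 : ⌊y n - A⌋₊ ≤ ⌊C0 + (α + 1) * N⌋₊ := Nat.floor_mono h1
      omega) (fun n hn => by linarith [(hn0 n hn).2])
  have hces := cesaro (s := fun n => SQ T q w (y n)) (fun n => SQ_nonneg hq w _)
    (fun n => SQ_le hA hq w _) L N
  have hsplit : ∑ n ∈ Finset.range N, ∑ i ∈ Finset.range L, SQ T q w (y (n + i)) ≤
      n0 * (L * (A + 1)) + (N * (L * I + L * (ε / 8) + L * (ε / 8) + L * (ε / 8)) +
        K * ((2 / α + 1) * (J * (ε / (8 * W))))) := by
    rw [← Finset.sum_range_add_sum_Ico _ hN6]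
    refine add_le_add ?_ ?_
    · calc ∑ n ∈ Finset.range n0, ∑ i ∈ Finset.range L, SQ T q w (y (n + i))
          ≤ ∑ n ∈ Finset.range n0, ∑ i ∈ Finset.range L, (A + 1) :=
            Finset.sum_le_sum fun n _ => Finset.sum_le_sum fun i _ => SQ_le hA hq w _
        _ = n0 * (L * (A + 1)) := by
            rw [Finset.sum_const, Finset.sum_const, Finset.card_range, Finset.card_range,
              nsmul_eq_mul, nsmul_eq_mul]
    · calc ∑ n ∈ Finset.Ico n0 N, ∑ i ∈ Finset.range L, SQ T q w (y (n + i))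
          ≤ ∑ n ∈ Finset.Ico n0 N, ((L * I + L * (ε / 8) + L * (ε / 8) + L * (ε / 8)) +
            K * Bf (T^[⌊y n - A⌋₊] w)) := by
            refine Finset.sum_le_sum fun n hn => ?_
            have := hblock n (Finset.mem_Ico.1 hn).1
            linarith
        _ = (N - n0 : ℕ) * (L * I + L * (ε / 8) + L * (ε / 8) + L * (ε / 8)) +
            K * ∑ n ∈ Finset.Ico n0 N, Bf (T^[⌊y n - A⌋₊] w) := by
            rw [Finset.sum_add_distrib, Finset.sum_const, Nat.card_Ico, nsmul_eq_mul,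
              ← Finset.mul_sum]
        _ ≤ _ := by
            have hI0 : 0 ≤ I := by
              rw [hI]; unfold JJ
              refine integral_nonneg fun w => ?_
              exact intervalIntegral.integral_nonneg hA fun u _ => hq.nn _ _
            have h1 : ((N - n0 : ℕ) : ℝ) ≤ N := by exact_mod_cast Nat.sub_le _ _
            have h2 : ∑ n ∈ Finset.Ico n0 N, Bf (T^[⌊y n - A⌋₊] w) ≤
                (2 / α + 1) * (J * (ε / (8 * W))) :=
              hfib.trans (by gcongr)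
            gcongr
  have hfin : (L:ℝ) * ∑ n ∈ Finset.range N, SQ T q w (y n) ≤ L * (N * (I + ε)) := by
    have h1 : K * ((2 / α + 1) * (J * (ε / (8 * W)))) ≤
        K * ((2 / α + 1) * ((|C0| + |A| + 3) * (ε / (8 * W)))) + L * (N * (ε / 8)) := by
      calc K * ((2 / α + 1) * (J * (ε / (8 * W))))
          ≤ K * ((2 / α + 1) * ((|C0| + |A| + 3 + (α + 1) * N) * (ε / (8 * W)))) := by gcongr
        _ = K * ((2 / α + 1) * ((|C0| + |A| + 3) * (ε / (8 * W)))) +
            K * ((2 / α + 1) * ((α + 1) * N * (ε / (8 * W)))) := by ring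
        _ ≤ K * ((2 / α + 1) * ((|C0| + |A| + 3) * (ε / (8 * W)))) + L * (N * (ε / 8)) := by
            refine add_le_add le_rfl ?_
            calc K * ((2 / α + 1) * ((α + 1) * N * (ε / (8 * W))))
                ≤ (L * (α + A + 2)) * ((2 / α + 1) * ((α + 1) * N * (ε / (8 * W)))) := by gcongr
              _ = L * N * ((α + A + 2) * (2 / α + 1) * (α + 1)) * (ε / (8 * W)) := by ring
              _ = L * N * W * (ε / (8 * W)) := by rw [← hW]
              _ = L * (N * (ε / 8)) := by field_simp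
    have h2 : Cc + K * ((2 / α + 1) * ((|C0| + |A| + 3) * (ε / (8 * W)))) ≤
        L * (N * (ε / 4)) := by
      have := mul_le_mul_of_nonneg_right hN5 (show 0 ≤ L * (ε / 4) by positivity)
      calc Cc + K * ((2 / α + 1) * ((|C0| + |A| + 3) * (ε / (8 * W))))
          = (Cc + K * ((2 / α + 1) * ((|C0| + |A| + 3) * (ε / (8 * W))))) *
            (4 / (ε * L)) * (L * (ε / 4)) := by field_simp
        _ ≤ N * (L * (ε / 4)) := this
        _ = L * (N * (ε / 4)) := by ring
    have h3 : (0:ℝ) ≤ L * (N * ε) := by positivity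
    rw [hCc] at h2
    have h4 : (L:ℝ) * (L * (A + 1)) = L * (L * (A + 1)) := rfl
    nlinarith
  exact le_of_mul_le_mul_left hfin hL0

end Pool.Agent.Helper59.HP
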