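import Mathlib

/-! Twisted ergodic averages tend to zero in mean for all but countably many frequencies. -/

open Filter Topology MeasureTheory Complex
open scoped NNReal InnerProductSpace ENNReal

namespace Pool.Agent.Helper59.HP

section Hilbert

set_option linter.unusedSectionVars false

variable {E : Type*} [NormedAddCommGroup E] [InnerProductSpace ℂ E] [CompleteSpace E]

/-- `z U` as a continuous linear map. -/
noncomputable def tw (U : E →ₗᵢ[ℂ] E) (z : ℂ) : E →L[ℂ] E := z • U.toContinuousLinearMap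

theorem tw_apply (U : E →ₗᵢ[ℂ] E) (z : ℂ) (x : E) : tw U z x = z • U x := rfl

theorem tw_norm (U : E →ₗᵢ[ℂ] E) {z : ℂ} (hz : ‖z‖ = 1) : ‖tw U z‖ ≤ 1 := by
  refine ContinuousLinearMap.opNorm_le_bound _ zero_le_one fun x => ?_
  rw [tw_apply, norm_smul, hz, U.norm_map]

theorem tw_iter (U : E →ₗᵢ[ℂ] E) (z : ℂ) (x : E) (k : ℕ) :
    (tw U z)^[k] x = z ^ k • (U^[k] x) := by
  induction k with
  | zero => simp
  | succ k ih =>
    rw [Function.iterate_succ_apply', ih, tw_apply, Function.iterate_succ_apply', map_smul,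
      smul_smul, pow_succ']

/-- the projection to the fixed space of `z U`. -/
noncomputable def pr (U : E →ₗᵢ[ℂ] E) (z : ℂ) (x : E) : E :=
  (((tw U z).eqLocus (1 : E →L[ℂ] E)).orthogonalProjectionOnto x : E)

theorem tendsto_pr (U : E →ₗᵢ[ℂ] E) {z : ℂ} (hz : ‖z‖ = 1) (x : E) :
    Tendsto (fun K : ℕ => (K : ℂ)⁻¹ • ∑ k ∈ Finset.range K, z ^ k • (U^[k] x)) atTop
      (𝓝 (pr U z x)) := by
  have h := ContinuousLinearMap.tendsto_birkhoffAverage_orthogonalProjection (tw U z)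
    (tw_norm U hz) x
  refine h.congr fun K => ?_
  simp only [birkhoffAverage, birkhoffSum, id]
  congr 1
  exact Finset.sum_congr rfl fun k _ => tw_iter U z x k

theorem pr_fix (U : E →ₗᵢ[ℂ] E) (z : ℂ) (x : E) : z • U (pr U z x) = pr U z x := by
  have h := (((tw U z).eqLocus (1 : E →L[ℂ] E)).orthogonalProjectionOnto x).2
  exact h

theorem pr_inner (U : E →ₗᵢ[ℂ] E) (z : ℂ) (x : E) :
    ⟪pr U z x, x⟫_ℂ = (‖pr U z x‖ : ℂ) ^ 2 := by
  have h := Submodule.inner_orthogonalProjectionOnto_eq_of_mem_left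
    (((tw U z).eqLocus (1 : E →L[ℂ] E)).orthogonalProjectionOnto x) x
  unfold pr
  rw [← h, inner_self_eq_norm_sq_to_K]
  rfl

theorem pr_orth (U : E →ₗᵢ[ℂ] E) {z z' : ℂ} (hz : ‖z‖ = 1) (hne : z ≠ z')
    (x : E) : ⟪pr U z x, pr U z' x⟫_ℂ = 0 := by
  have h1 := pr_fix U z x
  have h2 := pr_fix U z' x
  have h3 : ⟪z • U (pr U z x), z' • U (pr U z' x)⟫_ℂ = ⟪pr U z x, pr U z' x⟫_ℂ := by
    rw [h1, h2]
  rw [inner_smul_left, inner_smul_right, U.inner_map_map] at h3
  have h4 : ((starRingEnd ℂ) z * z' - 1) * ⟪pr U z x, pr U z' x⟫_ℂ = 0 := by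
    linear_combination h3
  rcases mul_eq_zero.1 h4 with h | h
  · exfalso
    apply hne
    have h5 : z * ((starRingEnd ℂ) z * z') = z := by
      rw [sub_eq_zero.1 h, mul_one]
    rw [← mul_assoc, Complex.mul_conj, Complex.normSq_eq_norm_sq, hz] at h5
    simpa using h5.symm
  · exact h

theorem hilbert_twist (U : E →ₗᵢ[ℂ] E) (x : E) :
    {z : ℂ | ‖z‖ = 1 ∧ pr U z x ≠ 0}.Countable := by
  set S := {z : ℂ | ‖z‖ = 1 ∧ pr U z x ≠ 0} with hS
  let v : S → E := fun z => ((‖pr U z x‖ : ℂ)⁻¹) • pr U z x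
  have hv : Orthonormal ℂ v := by
    constructor
    · intro z
      have h0 : ‖pr U z x‖ ≠ 0 := norm_ne_zero_iff.2 z.2.2
      simp only [v]
      rw [norm_smul, norm_inv, Complex.norm_real, norm_norm, inv_mul_cancel₀ h0]
    · intro z z' hzz
      simp only [v]
      rw [inner_smul_left, inner_smul_right, pr_orth U z.2.1
        (fun h => hzz (Subtype.ext h)) x]
      simp
  have hsum := hv.inner_products_summable (x := x)
  have hc := hsum.countable_support
  have hu : Function.support (fun i => ‖⟪v i, x⟫_ℂ‖ ^ 2) = Set.univ := by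
    ext z
    simp only [Function.mem_support, Set.mem_univ, iff_true]
    have h0 : (‖pr U z x‖ : ℂ) ≠ 0 := by
      exact_mod_cast norm_ne_zero_iff.2 z.2.2
    have : ⟪v z, x⟫_ℂ ≠ 0 := by
      simp only [v]
      rw [inner_smul_left, pr_inner]
      simp only [map_inv₀, Complex.conj_ofReal]
      exact mul_ne_zero (inv_ne_zero h0) (pow_ne_zero _ h0)
    exact pow_ne_zero _ (norm_ne_zero_iff.2 this)
  rw [hu] at hc
  exact Set.countable_coe_iff.1 (Set.countable_univ_iff.1 hc)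

end Hilbert

variable {Ω : Type*} [MeasurableSpace Ω] {μ : Measure Ω}

/-- `e x = exp (2 π i x)`. -/
noncomputable def ex (x : ℝ) : ℂ := Complex.exp ((2 * Real.pi * x : ℝ) * Complex.I)

theorem norm_ex (x : ℝ) : ‖ex x‖ = 1 := by
  unfold ex; exact Complex.norm_exp_ofReal_mul_I _

theorem ex_add (x y : ℝ) : ex (x + y) = ex x * ex y := by
  unfold ex; rw [← Complex.exp_add]; congr 1; push_cast; ring

theorem ex_zero : ex 0 = 1 := by unfold ex; simp

theorem ex_nat_mul (k : ℕ) (x : ℝ) : ex (k * x) = ex x ^ k := by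
  unfold ex; rw [← Complex.exp_nat_mul]; congr 1; push_cast; ring

theorem ex_int (m : ℤ) : ex m = 1 := by
  unfold ex
  rw [show ((2 * Real.pi * (m : ℝ) : ℝ) : ℂ) * Complex.I = m * (2 * Real.pi * Complex.I) by
    push_cast; ring]
  exact Complex.exp_int_mul_two_pi_mul_I m

theorem continuous_ex : Continuous ex := by
  unfold ex; fun_prop

/-- the twisted average of `f` at frequency `l`. -/
noncomputable def ta (T : Ω → Ω) (f : Ω → ℂ) (l : ℝ) (K : ℕ) (w : Ω) : ℂ :=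
  (K : ℂ)⁻¹ * ∑ k ∈ Finset.range K, ex (-(k * l)) * f (T^[k] w)

theorem iter_ae {T : Ω → Ω} (hT : MeasurePreserving T μ μ) {f : Ω → ℂ} (hf : MemLp f 2 μ)
    (k : ℕ) : ((Lp.compMeasurePreservingₗᵢ ℂ T hT)^[k] (hf.toLp f) : Lp ℂ 2 μ)
      =ᵐ[μ] fun w => f (T^[k] w) := by
  induction k with
  | zero => simpa using hf.coeFn_toLp
  | succ k ih =>
    rw [Function.iterate_succ_apply']
    have h1 := Lp.coeFn_compMeasurePreserving
      ((Lp.compMeasurePreservingₗᵢ ℂ T hT)^[k] (hf.toLp f)) hT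
    have h2 := hT.quasiMeasurePreserving.ae_eq_comp ih
    refine h1.trans (h2.trans ?_)
    refine Eventually.of_forall fun w => ?_
    simp [Function.comp, Function.iterate_succ_apply]

theorem ta_ae {T : Ω → Ω} (hT : MeasurePreserving T μ μ) {f : Ω → ℂ} (hf : MemLp f 2 μ)
    (l : ℝ) (K : ℕ) :
    (((K : ℂ)⁻¹ • ∑ k ∈ Finset.range K, (ex (-l)) ^ k •
      ((Lp.compMeasurePreservingₗᵢ ℂ T hT)^[k] (hf.toLp f)) : Lp ℂ 2 μ) : Ω → ℂ)
      =ᵐ[μ] ta T f l K := by
  have h1 := Lp.coeFn_smul (K : ℂ)⁻¹ (∑ k ∈ Finset.range K, (ex (-l)) ^ k •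
      ((Lp.compMeasurePreservingₗᵢ ℂ T hT)^[k] (hf.toLp f)) : Lp ℂ 2 μ)
  have h2 := Lp.coeFn_finsetSum (Finset.range K) (fun k => (ex (-l)) ^ k •
      ((Lp.compMeasurePreservingₗᵢ ℂ T hT)^[k] (hf.toLp f)) : ℕ → Lp ℂ 2 μ)
  have h3 : ∀ᵐ w ∂μ, ∀ k : ℕ, (((ex (-l)) ^ k •
      ((Lp.compMeasurePreservingₗᵢ ℂ T hT)^[k] (hf.toLp f)) : Lp ℂ 2 μ) : Ω → ℂ) w
      = ex (-l) ^ k * f (T^[k] w) := by
    rw [ae_all_iff]
    intro k
    filter_upwards [Lp.coeFn_smul ((ex (-l)) ^ k)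
      ((Lp.compMeasurePreservingₗᵢ ℂ T hT)^[k] (hf.toLp f)), iter_ae hT hf k] with w h4 h5
    rw [h4, Pi.smul_apply, h5, smul_eq_mul]
  filter_upwards [h1, h2, h3] with w h1 h2 h3
  rw [h1, Pi.smul_apply, h2]
  simp only [Finset.sum_apply]
  rw [smul_eq_mul, ta]
  congr 1
  refine Finset.sum_congr rfl fun k _ => ?_
  rw [h3 k, ← ex_nat_mul]
  congr 2
  ring

/-- the L² limit of the twisted averages. -/
noncomputable def pl {T : Ω → Ω} (hT : MeasurePreserving T μ μ) (l : ℝ) (x : Lp ℂ 2 μ) :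
    Lp ℂ 2 μ := pr (Lp.compMeasurePreservingₗᵢ ℂ T hT) (ex (-l)) x

theorem memLp_of_bdd [IsProbabilityMeasure μ] {f : Ω → ℂ} (hf : Measurable f) {C : ℝ}
    (hC : ∀ w, ‖f w‖ ≤ C) : MemLp f 2 μ :=
  MemLp.of_bound hf.aestronglyMeasurable C (Eventually.of_forall hC)

theorem ta_meas {T : Ω → Ω} (hT : Measurable T) {f : Ω → ℂ} (hf : Measurable f) (l : ℝ)
    (K : ℕ) : Measurable (ta T f l K) := by
  unfold ta
  refine Measurable.const_mul ?_ _
  exact Finset.measurable_sum _ fun k _ => (hf.comp (hT.iterate k)).const_mul _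

omit [MeasurableSpace Ω] in
theorem ta_bdd {T : Ω → Ω} {f : Ω → ℂ} {C : ℝ} (h0 : 0 ≤ C) (hC : ∀ w, ‖f w‖ ≤ C) (l : ℝ)
    (K : ℕ) (w : Ω) : ‖ta T f l K w‖ ≤ C := by
  unfold ta
  rcases Nat.eq_zero_or_pos K with h | h
  · subst h; simpa using h0
  rw [norm_mul, norm_inv, Complex.norm_natCast]
  have h1 : ‖∑ k ∈ Finset.range K, ex (-(k * l)) * f (T^[k] w)‖ ≤ K * C := by
    refine (norm_sum_le _ _).trans ?_
    refine (Finset.sum_le_sum (g := fun _ => C) fun k _ => ?_).trans (by simp)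
    rw [norm_mul, norm_ex, one_mul]; exact hC _
  have h2 : (0:ℝ) < K := by exact_mod_cast h
  calc (K:ℝ)⁻¹ * ‖∑ k ∈ Finset.range K, ex (-(k * l)) * f (T^[k] w)‖ ≤ (K:ℝ)⁻¹ * (K * C) := by
        gcongr
    _ = C := by field_simp

/-- L¹ convergence to zero when the projection vanishes. -/
theorem ta_tendsto [IsProbabilityMeasure μ] {T : Ω → Ω} (hT : MeasurePreserving T μ μ)
    {f : Ω → ℂ} (hf : Measurable f) {C : ℝ} (hC : ∀ w, ‖f w‖ ≤ C) {l : ℝ}
    (hl : pl hT l ((memLp_of_bdd (μ := μ) hf hC).toLp f) = 0) :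
    Tendsto (fun K : ℕ => ∫ w, ‖ta T f l K w‖ ∂μ) atTop (𝓝 0) := by
  have h1 := tendsto_pr (Lp.compMeasurePreservingₗᵢ ℂ T hT) (norm_ex (-l))
    ((memLp_of_bdd (μ := μ) hf hC).toLp f)
  have h2 : pr (Lp.compMeasurePreservingₗᵢ ℂ T hT) (ex (-l))
    ((memLp_of_bdd (μ := μ) hf hC).toLp f) = 0 := hl
  rw [h2] at h1
  have h3 := h1.norm
  rw [norm_zero] at h3
  refine squeeze_zero (fun K => integral_nonneg fun w => norm_nonneg _) (fun K => ?_) h3
  have h4 := ta_ae hT (memLp_of_bdd (μ := μ) hf hC) l K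
  have hm := ta_meas hT.measurable hf l K
  rw [Lp.norm_def]
  rw [eLpNorm_congr_ae h4]
  have h5 : ∫ w, ‖ta T f l K w‖ ∂μ = (eLpNorm (ta T f l K) 1 μ).toReal := by
    rw [eLpNorm_one_eq_lintegral_enorm, integral_norm_eq_lintegral_enorm hm.aestronglyMeasurable]
  rw [h5]
  refine ENNReal.toReal_mono ?_ ?_
  · have h6 : MemLp (ta T f l K) 2 μ := by
      refine memLp_of_bdd hm (C := max C 0) fun w => ?_
      exact ta_bdd (le_max_right _ _) (fun w => (hC w).trans (le_max_left _ _)) l K w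
    exact h6.2.ne
  · exact eLpNorm_le_eLpNorm_of_exponent_le (by norm_num) hm.aestronglyMeasurable

theorem proj_sub {E : Type*} [NormedAddCommGroup E] [InnerProductSpace ℂ E] [CompleteSpace E]
    (K : Submodule ℂ E) [K.HasOrthogonalProjection] (x y : E) :
    ‖(K.orthogonalProjectionOnto x : E) - (K.orthogonalProjectionOnto y : E)‖ ≤ ‖x - y‖ := by
  rw [← Submodule.coe_sub, ← map_sub]
  have h := Submodule.orthogonalProjectionOnto_norm_le K
  calc _ ≤ _ := ContinuousLinearMap.le_opNorm (K.orthogonalProjectionOnto) (x - y)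
    _ ≤ 1 * ‖x - y‖ := by gcongr
    _ = ‖x - y‖ := one_mul _

theorem pl_sub {T : Ω → Ω} (hT : MeasurePreserving T μ μ) (l : ℝ) (x y : Lp ℂ 2 μ) :
    ‖pl hT l x - pl hT l y‖ ≤ ‖x - y‖ :=
  proj_sub _ x y

/-- countable set of bad frequencies for one function. -/
theorem pl_countable {T : Ω → Ω} (hT : MeasurePreserving T μ μ) (x : Lp ℂ 2 μ) :
    {l : ℝ | pl hT l x ≠ 0}.Countable := by
  have h := hilbert_twist (Lp.compMeasurePreservingₗᵢ ℂ T hT) x
  have h1 : {l : ℝ | pl hT l x ≠ 0} ⊆ ⋃ z ∈ {z : ℂ | ‖z‖ = 1 ∧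
      pr (Lp.compMeasurePreservingₗᵢ ℂ T hT) z x ≠ 0}, {l : ℝ | ex (-l) = z} := by
    intro l hl
    simp only [Set.mem_iUnion]
    exact ⟨ex (-l), ⟨norm_ex _, hl⟩, rfl⟩
  refine Set.Countable.mono h1 (h.biUnion fun z _ => ?_)
  by_cases hz : ∃ l0 : ℝ, ex (-l0) = z
  · obtain ⟨l0, hl0⟩ := hz
    have h2 : {l : ℝ | ex (-l) = z} ⊆ Set.range fun m : ℤ => l0 + m := by
      intro l hl
      simp only [Set.mem_ofPred_eq] at hl
      rw [← hl0] at hl
      unfold ex at hl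
      rw [Complex.exp_eq_exp_iff_exists_int] at hl
      obtain ⟨m, hm⟩ := hl
      refine ⟨-m, ?_⟩
      have h3 : ((2 * Real.pi * -l : ℝ) : ℂ) = ((2 * Real.pi * -l0 + m * (2 * Real.pi) : ℝ) : ℂ) := by
        have := Complex.I_ne_zero
        apply mul_right_cancel₀ this
        rw [hm]; push_cast; ring
      have h4 := Complex.ofReal_injective h3
      have h5 : (2 * Real.pi) * (l - l0 + m) = 0 := by linarith
      rcases mul_eq_zero.1 h5 with h6 | h6
      · exact absurd h6 (by positivity)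
      · push_cast; linarith
    exact (Set.countable_range _).mono h2
  · have : {l : ℝ | ex (-l) = z} = ∅ := by
      ext l
      simp only [Set.mem_ofPred_eq, Set.mem_empty_iff_false, iff_false]
      exact fun h => hz ⟨l, h⟩
    rw [this]; exact Set.countable_empty

/-- countable set of bad frequencies for a Lipschitz family of functions. -/
theorem fam_countable [IsProbabilityMeasure μ] {T : Ω → Ω} (hT : MeasurePreserving T μ μ)
    {f : ℝ → Ω → ℂ} (hf : ∀ l, Measurable (f l)) {C D : ℝ} (hC : ∀ l w, ‖f l w‖ ≤ C)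
    (hD : ∀ l l' w, ‖f l w - f l' w‖ ≤ D * |l - l'|) :
    ∃ S : Set ℝ, S.Countable ∧ ∀ l, l ∉ S →
      Tendsto (fun K : ℕ => ∫ w, ‖ta T (f l) l K w‖ ∂μ) atTop (𝓝 0) := by
  classical
  set X : ℝ → Lp ℂ 2 μ := fun l => (memLp_of_bdd (μ := μ) (hf l) (hC l)).toLp (f l) with hX
  refine ⟨⋃ r : ℚ, {l : ℝ | pl hT l (X r) ≠ 0}, Set.countable_iUnion fun r =>
    pl_countable hT _, fun l hl => ?_⟩
  simp only [Set.mem_iUnion, Set.mem_ofPred_eq, not_exists, not_not] at hl
  refine ta_tendsto hT (hf l) (hC l) ?_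
  change pl hT l (X l) = 0
  rw [← norm_le_zero_iff]
  refine le_of_forall_pos_le_add fun ε hε => ?_
  haveI : Nonempty Ω := nonempty_of_isProbabilityMeasure μ
  have hD0 : 0 ≤ D := by
    have := hD 1 0 (Classical.arbitrary _)
    simp at this
    exact (norm_nonneg _).trans this
  obtain ⟨r, hr1, hr2⟩ := exists_rat_btwn (show l < l + ε / (D + 1) by
    have : 0 < ε / (D + 1) := by positivity
    linarith)
  have h1 := pl_sub hT l (X l) (X r)
  rw [hl r, sub_zero] at h1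
  refine h1.trans ?_
  rw [zero_add, hX]
  simp only
  rw [← MemLp.toLp_sub, Lp.norm_toLp]
  have h2 : eLpNorm (f l - f r) 2 μ ≤ ENNReal.ofReal ε := by
    have h3 := eLpNorm_le_of_ae_bound (p := 2) (μ := μ) (f := f l - f r) (C := ε)
      (Eventually.of_forall fun w => ?_)
    · simpa using h3
    · have h4 := hD l r w
      have h5 : |l - r| ≤ ε / (D + 1) := by
        rw [abs_le]; constructor <;> linarith
      calc ‖(f l - f r) w‖ ≤ D * |l - r| := h4
        _ ≤ D * (ε / (D + 1)) := by gcongr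
        _ ≤ ε := by
          rw [mul_div_assoc', div_le_iff₀ (by positivity)]
          nlinarith
  calc (eLpNorm (f l - f r) 2 μ).toReal ≤ (ENNReal.ofReal ε).toReal :=
        ENNReal.toReal_mono ENNReal.ofReal_ne_top h2
    _ = ε := ENNReal.toReal_ofReal hε.le

end Pool.Agent.Helper59.HP
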