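import Pool.Agent.Helper59.HP.Block

/-! The error functions: convergence in mean and uniform ergodic theorem. -/

open Filter Topology MeasureTheory
open scoped NNReal ENNReal

namespace Pool.Agent.Helper59.HP

open Pool.Agent.Helper32.HP (IsQ JJ SQ)

variable {Ω : Type*} [MeasurableSpace Ω] {μ : Measure Ω} {T : Ω → Ω} {q : Ω → ℝ → ℝ} {Λ A : ℝ}

/-- pointwise ergodic theorem for ergodic maps and bounded functions. -/
theorem erg_avg [IsProbabilityMeasure μ] (hT : Ergodic T μ) {h : Ω → ℝ} (hh : Measurable h) {C : ℝ}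
    (hC : ∀ x, |h x| ≤ C) :
    ∀ᵐ w ∂μ, Tendsto (fun n : ℕ => (∑ k ∈ Finset.range n, h (T^[k] w)) / n) atTop
      (𝓝 (∫ x, h x ∂μ)) := by
  obtain ⟨G, hG1, hG2, hG3, hG4, hG5⟩ :=
    Pool.Agent.Helper18.SD.birkhoff_bdd hT.toMeasurePreserving hh hC
  obtain ⟨c, hc⟩ := hT.ae_eq_const_of_ae_eq_comp_ae hG1.aestronglyMeasurable
    (show G ∘ T =ᵐ[μ] G from hG3)
  have h1 : ∫ x, G x ∂μ = c := by
    rw [integral_congr_ae hc]; simp
  filter_upwards [hG4, hc] with w h2 h3
  rw [← hG5, h1]
  rw [h3] at h2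
  exact h2

theorem tm_meas (hT : Measurable T) (hΛ : 0 ≤ Λ) (hq : IsQ q Λ A) (l : ℝ) (K : ℕ) :
    Measurable (tm μ T q A l K) := by
  unfold tm
  exact ((ta_meas hT (fq_meas hΛ hq l) l K).sub_const _).norm

theorem JJ_bd [IsProbabilityMeasure μ] (hA : 0 ≤ A) (hq : IsQ q Λ A) : |JJ μ q A| ≤ A := by
  unfold JJ
  have h : ∀ w, ‖∫ y in (0:ℝ)..A, q w y‖ ≤ A := by
    intro w
    have h := intervalIntegral.norm_integral_le_of_norm_le_const (a := 0) (b := A) (C := 1)
      (f := fun u => q w u) (fun u _ => by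
        rw [Real.norm_eq_abs, abs_of_nonneg (hq.nn _ _)]
        exact hq.le1 _ _)
    rw [sub_zero, abs_of_nonneg hA, one_mul] at h
    exact h
  have h2 := norm_integral_le_of_norm_le_const (μ := μ) (Eventually.of_forall h)
  simpa using h2

theorem tm_bdd [IsProbabilityMeasure μ] (hA : 0 ≤ A) (hq : IsQ q Λ A) (l : ℝ) (K : ℕ) (w : Ω) :
    |tm μ T q A l K w| ≤ 2 * A := by
  unfold tm
  rw [abs_of_nonneg (norm_nonneg _)]
  refine (norm_sub_le _ _).trans ?_
  have h1 := ta_bdd (T := T) hA (fq_norm hA hq l) l K w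
  have h2 : ‖(if l = 0 then ((JJ μ q A : ℝ) : ℂ) else 0)‖ ≤ A := by
    split_ifs
    · rw [Complex.norm_real, Real.norm_eq_abs]; exact JJ_bd hA hq
    · simpa using hA
  linarith

theorem tm_lip (hΛ : 0 ≤ Λ) (hA : 0 ≤ A) (hq : IsQ q Λ A) {l l' : ℝ} (hl : l ≠ 0) (hl' : l' ≠ 0)
    (K : ℕ) (w : Ω) : |tm μ T q A l K w - tm μ T q A l' K w| ≤
      (2 * Real.pi * A * A + 2 * Real.pi * K * A) * |l - l'| := by
  unfold tm
  rw [if_neg hl, if_neg hl', sub_zero, sub_zero]
  refine (abs_norm_sub_norm_le _ _).trans ?_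
  unfold ta
  rcases Nat.eq_zero_or_pos K with h | hK
  · subst h; simp; positivity
  have hK' : (0:ℝ) < K := by exact_mod_cast hK
  rw [← mul_sub, ← Finset.sum_sub_distrib, norm_mul, norm_inv, Complex.norm_natCast]
  calc (K:ℝ)⁻¹ * ‖∑ k ∈ Finset.range K, (ex (-(k * l)) * fq q l (T^[k] w) -
        ex (-(k * l')) * fq q l' (T^[k] w))‖
      ≤ (K:ℝ)⁻¹ * ∑ k ∈ Finset.range K,
        ((2 * Real.pi * A * A + 2 * Real.pi * K * A) * |l - l'|) := by
        gcongr
        refine (norm_sum_le _ _).trans (Finset.sum_le_sum fun k hk => ?_)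
        have h1 : ex (-(k * l)) * fq q l (T^[k] w) - ex (-(k * l')) * fq q l' (T^[k] w)
            = ex (-(k * l)) * (fq q l (T^[k] w) - fq q l' (T^[k] w)) +
              (ex (-(k * l)) - ex (-(k * l'))) * fq q l' (T^[k] w) := by ring
        rw [h1, add_mul]
        refine (norm_add_le _ _).trans (add_le_add ?_ ?_)
        · rw [norm_mul, norm_ex, one_mul]
          exact fq_lip hΛ hA hq _ _ _
        · rw [norm_mul]
          calc ‖ex (-(k * l)) - ex (-(k * l'))‖ * ‖fq q l' (T^[k] w)‖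
              ≤ (2 * Real.pi * |-((k:ℝ) * l) - -(k * l')|) * A :=
                mul_le_mul (ex_lip _ _) (fq_norm hA hq _ _) (norm_nonneg _) (by positivity)
            _ = 2 * Real.pi * k * A * |l - l'| := by
                rw [show -((k:ℝ) * l) - -(k * l') = -(k * (l - l')) by ring, abs_neg, abs_mul,
                  abs_of_nonneg (Nat.cast_nonneg k)]
                ring
            _ ≤ 2 * Real.pi * K * A * |l - l'| := by
                have : (k:ℝ) ≤ K := by exact_mod_cast (Finset.mem_range.1 hk).le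
                gcongr
    _ = _ := by
        rw [Finset.sum_const, Finset.card_range, nsmul_eq_mul]; field_simp

/-- the mean of the error functions tends to zero outside of a countable set. -/
theorem tm_mean [IsProbabilityMeasure μ] (hT : Ergodic T μ) (hΛ : 0 ≤ Λ) (hA : 0 ≤ A)
    (hq : IsQ q Λ A) : ∃ S : Set ℝ, S.Countable ∧ ∀ l : ℝ, l ∉ S ∨ l = 0 →
      Tendsto (fun K : ℕ => ∫ w, tm μ T q A l K w ∂μ) atTop (𝓝 0) := by
  obtain ⟨S, hS1, hS2⟩ := fam_countable hT.toMeasurePreserving (f := fq q) (fq_meas hΛ hq)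
    (C := A) (D := 2 * Real.pi * A * A) (fq_norm hA hq) (fq_lip hΛ hA hq)
  refine ⟨S, hS1, fun l hl => ?_⟩
  by_cases h0 : l = 0
  · subst h0
    have h1 := erg_avg hT (h := fun w => (fq q 0 w).re)
      (Complex.measurable_re.comp (fq_meas hΛ hq 0)) (C := A)
      (fun x => (Complex.abs_re_le_norm _).trans (fq_norm hA hq 0 x))
    have h2 := fq_zero_int (μ := μ) hA hq
    have h3 : ∀ᵐ w ∂μ, Tendsto (fun K : ℕ => tm μ T q A 0 K w) atTop (𝓝 0) := by
      filter_upwards [h1] with w hw
      rw [h2.1] at hw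
      have h4 : ∀ K : ℕ, tm μ T q A 0 K w =
          |(∑ k ∈ Finset.range K, (fq q 0 (T^[k] w)).re) / K - JJ μ q A| := by
        intro K
        unfold tm ta
        rw [if_pos rfl]
        simp only [mul_zero, neg_zero, ex_zero, one_mul]
        have h5 : (K:ℂ)⁻¹ * ∑ k ∈ Finset.range K, fq q 0 (T^[k] w) =
            (((∑ k ∈ Finset.range K, (fq q 0 (T^[k] w)).re) / K : ℝ) : ℂ) := by
          push_cast
          rw [div_eq_inv_mul]
          congr 1
          exact Finset.sum_congr rfl fun k _ => h2.2 _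
        rw [h5, ← Complex.ofReal_sub, Complex.norm_real, Real.norm_eq_abs]
      simp_rw [h4]
      have h6 := (hw.sub_const (JJ μ q A)).abs
      simpa using h6
    have h7 := tendsto_integral_of_dominated_convergence (μ := μ) (fun _ => 2 * A)
      (F := fun K w => tm μ T q A 0 K w) (f := fun _ => 0)
      (fun K => (tm_meas hT.measurable hΛ hq 0 K).aestronglyMeasurable)
      (integrable_const _) (fun K => Eventually.of_forall fun w => by
        rw [Real.norm_eq_abs]; exact tm_bdd hA hq 0 K w) h3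
    simpa using h7
  · have h1 := hS2 l (hl.resolve_right h0)
    refine h1.congr fun K => ?_
    refine integral_congr_ae (Eventually.of_forall fun w => ?_)
    simp only [tm, if_neg h0, sub_zero]

/-- the uniform ergodic theorem for the error functions. -/
theorem tm_birk [IsProbabilityMeasure μ] (hT : Ergodic T μ) (hΛ : 0 ≤ Λ) (hA : 0 ≤ A)
    (hq : IsQ q Λ A) : ∀ᵐ w ∂μ, ∀ (K : ℕ) (l : ℝ), ∀ ε : ℝ, 0 < ε → ∀ᶠ N : ℕ in atTop,
      ∑ j ∈ Finset.range N, tm μ T q A l K (T^[j] w) ≤ N * ((∫ w, tm μ T q A l K w ∂μ) + ε) := by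
  have h1 : ∀ᵐ w ∂μ, ∀ (K : ℕ) (r : ℚ), Tendsto (fun n : ℕ =>
      (∑ k ∈ Finset.range n, tm μ T q A r K (T^[k] w)) / n) atTop
      (𝓝 (∫ x, tm μ T q A r K x ∂μ)) := by
    rw [ae_all_iff]; intro K
    rw [ae_all_iff]; intro r
    exact erg_avg hT (tm_meas hT.measurable hΛ hq r K) (tm_bdd hA hq r K)
  filter_upwards [h1] with w hw K l ε hε
  -- the rational case
  have hrat : ∀ (r : ℚ) (ε : ℝ), 0 < ε → ∀ᶠ N : ℕ in atTop,
      ∑ j ∈ Finset.range N, tm μ T q A r K (T^[j] w) ≤
        N * ((∫ w, tm μ T q A r K w ∂μ) + ε) := by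
    intro r ε hε
    have h2 := (hw K r).eventually (gt_mem_nhds (show (∫ x, tm μ T q A r K x ∂μ) <
      (∫ x, tm μ T q A r K x ∂μ) + ε by linarith))
    filter_upwards [h2, eventually_gt_atTop 0] with N h3 h4
    have h5 : (0:ℝ) < N := by exact_mod_cast h4
    rw [div_lt_iff₀ h5] at h3
    linarith
  by_cases h0 : l = 0
  · subst h0
    have := hrat 0 ε hε
    simpa using this
  · set C := 2 * Real.pi * A * A + 2 * Real.pi * K * A with hC
    have hC0 : 0 ≤ C := by positivity
    have hl0 : 0 < |l| := abs_pos.2 h0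
    obtain ⟨r, hr1, hr2⟩ := exists_rat_btwn (show l < l + min (|l| / 2) (ε / (4 * (C + 1))) by
      have : 0 < min (|l| / 2) (ε / (4 * (C + 1))) := by positivity
      linarith)
    have hr3 : |l - r| ≤ min (|l| / 2) (ε / (4 * (C + 1))) := by
      rw [abs_le]; constructor <;> linarith
    have hr0 : (r:ℝ) ≠ 0 := by
      intro h
      rw [h, sub_zero] at hr3
      have := hr3.trans (min_le_left _ _)
      linarith
    have hclose : ∀ x, |tm μ T q A l K x - tm μ T q A r K x| ≤ ε / 4 := by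
      intro x
      refine (tm_lip hΛ hA hq h0 hr0 K x).trans ?_
      calc C * |l - r| ≤ C * (ε / (4 * (C + 1))) := by
            gcongr; exact hr3.trans (min_le_right _ _)
        _ ≤ ε / 4 := by
            rw [mul_div_assoc', div_le_div_iff₀ (by positivity) (by positivity)]
            nlinarith
    have hint : ∀ l : ℝ, Integrable (fun x => tm μ T q A l K x) μ := fun l =>
      Integrable.of_bound (tm_meas hT.measurable hΛ hq l K).aestronglyMeasurable (2 * A)
        (Eventually.of_forall fun x => by rw [Real.norm_eq_abs]; exact tm_bdd hA hq l K x)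
    have hI : (∫ x, tm μ T q A r K x ∂μ) ≤ (∫ x, tm μ T q A l K x ∂μ) + ε / 4 := by
      have : (∫ x, tm μ T q A r K x ∂μ) ≤ ∫ x, (tm μ T q A l K x + ε / 4) ∂μ := by
        refine integral_mono (hint _) ((hint _).add (integrable_const _)) fun x => ?_
        have := hclose x
        rw [abs_le] at this
        simp only
        linarith [this.1]
      rw [integral_add (hint _) (integrable_const _)] at this
      simpa using this
    filter_upwards [hrat r (ε / 2) (by positivity)] with N hN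
    calc ∑ j ∈ Finset.range N, tm μ T q A l K (T^[j] w)
        ≤ ∑ j ∈ Finset.range N, (tm μ T q A r K (T^[j] w) + ε / 4) := by
          refine Finset.sum_le_sum fun j _ => ?_
          have := hclose (T^[j] w)
          rw [abs_le] at this
          linarith [this.2]
      _ = ∑ j ∈ Finset.range N, tm μ T q A r K (T^[j] w) + N * (ε / 4) := by
          rw [Finset.sum_add_distrib, Finset.sum_const, Finset.card_range, nsmul_eq_mul]
      _ ≤ N * ((∫ w, tm μ T q A r K w ∂μ) + ε / 2) + N * (ε / 4) := by linarith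
      _ ≤ N * ((∫ w, tm μ T q A l K w ∂μ) + ε) := by
          have : (0:ℝ) ≤ N := Nat.cast_nonneg N
          nlinarith

end Pool.Agent.Helper59.HP
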