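import Pool.Agent.Helper59.HP.Per
import Pool.Agent.Helper32.HP.Defs
import Pool.Agent.Helper18.SD.King

/-! Averages over one block. -/

open Filter Topology MeasureTheory
open scoped NNReal ENNReal

namespace Pool.Agent.Helper59.HP

open Pool.Agent.Helper32.HP (IsQ JJ SQ)

theorem ex_lip (x y : ℝ) : ‖ex x - ex y‖ ≤ 2 * Real.pi * |x - y| := by
  have h : ex x - ex y = ex y * (Complex.exp (Complex.I * ((2 * Real.pi * (x - y) : ℝ) : ℂ)) - 1) := by
    have h1 : Complex.exp (Complex.I * ((2 * Real.pi * (x - y) : ℝ) : ℂ)) = ex (x - y) := by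
      unfold ex; congr 1; ring
    rw [h1, mul_sub, ← ex_add, mul_one]
    congr 2; ring
  rw [h, norm_mul, norm_ex, one_mul]
  refine Real.norm_exp_I_mul_ofReal_sub_one_le.trans ?_
  rw [Real.norm_eq_abs, abs_mul, abs_of_pos (by positivity : (0:ℝ) < 2 * Real.pi)]

variable {Ω : Type*} [MeasurableSpace Ω] {μ : Measure Ω} {T : Ω → Ω} {q : Ω → ℝ → ℝ} {Λ A : ℝ}

theorem isq_bump (hq : IsQ q Λ A) (w : Ω) (k : ℕ) : Bump (fun u => q w (u - k)) Λ k A where
  l := fun y y' => by
    have := hq.l w (y - k) (y' - k)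
    rwa [sub_sub_sub_cancel_right] at this
  nn := fun y => hq.nn _ _
  le1 := fun y => hq.le1 _ _
  s := fun y hy => hq.s w _ (by
    rcases hy with h | h
    · left; linarith
    · right; linarith)

theorem isq_bump0 (hq : IsQ q Λ A) (w : Ω) : Bump (q w) Λ 0 A where
  l := fun y y' => hq.l w y y'
  nn := fun y => hq.nn _ _
  le1 := fun y => hq.le1 _ _
  s := fun y hy => hq.s w _ (by simpa using hy)

/-- Fourier transform of the weight. -/
noncomputable def fq (q : Ω → ℝ → ℝ) (l : ℝ) (w : Ω) : ℂ := ∫ u, (q w u : ℂ) * ex (-(l * u))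

theorem fq_eq (hq : IsQ q Λ A) (l : ℝ) (w : Ω) :
    fq q l w = ∫ u in (0:ℝ)..A, (q w u : ℂ) * ex (-(l * u)) := by
  unfold fq
  rw [intervalIntegral.integral_eq_integral_of_support_subset]
  intro u hu
  by_contra h
  rw [Set.mem_Ioc, not_and_or, not_lt, not_le] at h
  apply hu
  simp only
  rw [hq.s w u (h.imp id le_of_lt)]
  simp

theorem fq_norm (hA : 0 ≤ A) (hq : IsQ q Λ A) (l : ℝ) (w : Ω) : ‖fq q l w‖ ≤ A := by
  rw [fq_eq hq]
  have h := intervalIntegral.norm_integral_le_of_norm_le_const (a := 0) (b := A) (C := 1)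
    (f := fun u => (q w u : ℂ) * ex (-(l * u))) (fun u _ => by
      rw [norm_mul, norm_ex, mul_one, Complex.norm_real, Real.norm_eq_abs, abs_of_nonneg (hq.nn _ _)]
      exact hq.le1 _ _)
  rw [sub_zero, abs_of_nonneg hA, one_mul] at h
  exact h

theorem q_cont (hΛ : 0 ≤ Λ) (hq : IsQ q Λ A) (w : Ω) : Continuous (q w) :=
  (isq_bump0 hq w).continuous hΛ

theorem fq_lip (hΛ : 0 ≤ Λ) (hA : 0 ≤ A) (hq : IsQ q Λ A) (l l' : ℝ) (w : Ω) :
    ‖fq q l w - fq q l' w‖ ≤ 2 * Real.pi * A * A * |l - l'| := by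
  have hc := q_cont hΛ hq w
  have hex := continuous_ex
  rw [fq_eq hq, fq_eq hq, ← intervalIntegral.integral_sub]
  · have h := intervalIntegral.norm_integral_le_of_norm_le_const (a := 0) (b := A)
      (C := 2 * Real.pi * A * |l - l'|)
      (f := fun u => (q w u : ℂ) * ex (-(l * u)) - (q w u : ℂ) * ex (-(l' * u))) (fun u hu => by
        rw [Set.uIoc_of_le hA] at hu
        rw [← mul_sub, norm_mul, Complex.norm_real, Real.norm_eq_abs, abs_of_nonneg (hq.nn _ _)]
        calc q w u * ‖ex (-(l * u)) - ex (-(l' * u))‖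
            ≤ 1 * (2 * Real.pi * |-(l * u) - -(l' * u)|) := by
              gcongr
              · exact hq.le1 _ _
              · exact ex_lip _ _
          _ = 2 * Real.pi * (|l - l'| * u) := by
              rw [one_mul, show -(l * u) - -(l' * u) = -((l - l') * u) by ring, abs_neg, abs_mul,
                abs_of_pos hu.1]
          _ ≤ 2 * Real.pi * (|l - l'| * A) := by gcongr; exact hu.2
          _ = 2 * Real.pi * A * |l - l'| := by ring)
    rw [sub_zero, abs_of_nonneg hA] at h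
    calc _ ≤ _ := h
      _ = _ := by ring
  · apply Continuous.intervalIntegrable; fun_prop
  · apply Continuous.intervalIntegrable; fun_prop

theorem fq_meas (hΛ : 0 ≤ Λ) (hq : IsQ q Λ A) (l : ℝ) : Measurable (fq q l) := by
  have h : Measurable (Function.uncurry fun (u : ℝ) (w : Ω) => (q w u : ℂ) * ex (-(l * u))) := by
    apply measurable_uncurry_of_continuous_of_measurable
    · intro w
      have hc := q_cont hΛ hq w
      have hex := continuous_ex
      fun_prop
    · intro u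
      exact (Complex.measurable_ofReal.comp (hq.m u)).mul_const _
  have h2 := h.stronglyMeasurable.integral_prod_left' (μ := (volume : Measure ℝ))
  exact h2.measurable

theorem fq_zero_int (hA : 0 ≤ A) (hq : IsQ q Λ A) :
    (∫ w, (fq q 0 w).re ∂μ) = JJ μ q A ∧ ∀ w, fq q 0 w = ((fq q 0 w).re : ℂ) := by
  have h : ∀ w, fq q 0 w = ((∫ u in (0:ℝ)..A, q w u : ℝ) : ℂ) := by
    intro w
    rw [fq_eq hq]
    simp only [zero_mul, neg_zero, ex_zero, mul_one]
    exact intervalIntegral.integral_ofReal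
  constructor
  · unfold JJ
    refine integral_congr_ae (Eventually.of_forall fun w => ?_)
    simp only
    rw [h w, Complex.ofReal_re]
  · intro w
    rw [h w, Complex.ofReal_re]

/-- the integral of the shifted weight. -/
theorem fq_shift (l : ℝ) (w : Ω) (k : ℕ) :
    ∫ u, ((q w (u - k) : ℝ) : ℂ) * ex (-(l * u)) = ex (-(k * l)) * fq q l w := by
  unfold fq
  have h := integral_sub_right_eq_self (μ := (volume : Measure ℝ))
    (fun u : ℝ => ((q w u : ℝ) : ℂ) * ex (-(l * (u + k)))) (k:ℝ)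
  simp only [sub_add_cancel] at h
  rw [h, ← integral_const_mul]
  congr 1
  ext u
  rw [show -(l * (u + (k:ℝ))) = -(k * l) + -(l * u) by ring, ex_add]
  ring

/-- the block average. -/
noncomputable def av (T : Ω → Ω) (q : Ω → ℝ → ℝ) (α : ℝ) (K : ℕ) (w : Ω) (x : ℝ) : ℝ :=
  (K : ℝ)⁻¹ * ∑ k ∈ Finset.range K, per α (fun u => q (T^[k] w) (u - k)) x

theorem per_cont {α s A : ℝ} (hα : 0 < α) (hA : 0 ≤ A) {f : ℝ → ℝ} {Λ : ℝ} (hΛ : 0 ≤ Λ)
    (hf : Bump f Λ s A) : Continuous (per α f) := by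
  have : LipschitzWith (Real.toNNReal (2 * (A / α + 1) * (Λ * α))) (per α f) := by
    refine LipschitzWith.of_dist_le_mul fun x y => ?_
    rw [Real.dist_eq, Real.dist_eq, Real.coe_toNNReal _ (by positivity)]
    exact per_lip hα hA hΛ hf x y
  exact this.continuous

theorem av_coeff (hΛ : 0 ≤ Λ) (hA : 0 ≤ A) (hq : IsQ q Λ A) {α : ℝ} (hα : 0 < α) (K : ℕ) (w : Ω)
    (m : ℤ) : ∫ t in (0:ℝ)..1, (av T q α K w t : ℂ) * ex (-(m * t))
      = (α:ℂ)⁻¹ * ta T (fq q (m / α)) (m / α) K w := by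
  have hex := continuous_ex
  have h1 : ∀ t : ℝ, (av T q α K w t : ℂ) * ex (-(m * t)) = ∑ k ∈ Finset.range K,
      (K:ℂ)⁻¹ * ((per α (fun u => q (T^[k] w) (u - k)) t : ℂ) * ex (-(m * t))) := by
    intro t
    unfold av
    push_cast
    rw [Finset.mul_sum, Finset.sum_mul]
    exact Finset.sum_congr rfl fun k _ => by ring
  simp_rw [h1]
  rw [intervalIntegral.integral_finsetSum]
  · unfold ta
    rw [Finset.mul_sum, Finset.mul_sum]
    refine Finset.sum_congr rfl fun k _ => ?_
    rw [intervalIntegral.integral_const_mul, per_coeff hα hΛ (isq_bump hq _ k), fq_shift]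
    ring
  · intro k _
    apply Continuous.intervalIntegrable
    have := per_cont hα hA hΛ (isq_bump hq (T^[k] w) k)
    fun_prop

/-- the error functions. -/
noncomputable def tm (μ : Measure Ω) (T : Ω → Ω) (q : Ω → ℝ → ℝ) (A l : ℝ) (K : ℕ) (w : Ω) : ℝ :=
  ‖ta T (fq q l) l K w - (if l = 0 then ((JJ μ q A : ℝ) : ℂ) else 0)‖

theorem int_ex (m : ℤ) : ∫ t in (0:ℝ)..1, ex (-(m * t)) = if m = 0 then 1 else 0 := by
  split_ifs with h
  · subst h; simp [ex_zero]
  · have h1 : ∀ t : ℝ, ex (-(m * t)) = Complex.exp ((-(2 * Real.pi * m) * Complex.I) * t) := by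
      intro t; unfold ex; congr 1; push_cast; ring
    simp_rw [h1]
    have h2 : (-(2 * Real.pi * m) * Complex.I : ℂ) ≠ 0 := by
      simp [h, Real.pi_ne_zero, Complex.I_ne_zero]
    rw [integral_exp_mul_complex h2]
    have h3 : Complex.exp ((-(2 * Real.pi * m) * Complex.I) * ((1:ℝ):ℂ)) = 1 := by
      have := Complex.exp_int_mul_two_pi_mul_I (-m)
      rw [← this]; congr 1; push_cast; ring
    rw [h3]; simp

theorem av_bound (hΛ : 0 ≤ Λ) (hA : 0 ≤ A) (hq : IsQ q Λ A) {α : ℝ} (hα : 0 < α) {ε : ℝ}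
    (hε : 0 < ε) : ∃ (F : Finset ℤ) (a : ℤ → ℝ), (∀ m, 0 ≤ a m) ∧ ∀ (K : ℕ) (w : Ω) (x : ℝ),
      0 < K → av T q α K w x ≤ JJ μ q A / α + ε + ∑ m ∈ F, a m * tm μ T q A (m / α) K w := by
  set I := JJ μ q A with hI
  obtain ⟨F, a, hF⟩ := kern (Λ := 2 * (A / α + 1) * (Λ * α)) (B := A / α + 1)
    (ε := ε / (1 + |I| / α)) (by positivity) (by positivity) (by positivity)
  refine ⟨F, fun m => ‖a m‖ * α⁻¹, fun m => by positivity, fun K w x hK => ?_⟩
  have hK' : (0:ℝ) < K := by exact_mod_cast hK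
  set ε' := ε / (1 + |I| / α) with hε'
  have hav := hF (av T q α K w) (fun x => by
      unfold av
      congr 1
      exact Finset.sum_congr rfl fun k _ => per_add_one _ _ _) (fun x => by
      unfold av
      rw [abs_of_nonneg (mul_nonneg (inv_nonneg.2 hK'.le) (Finset.sum_nonneg fun k _ =>
        per_nonneg (isq_bump hq _ k) _))]
      calc (K:ℝ)⁻¹ * ∑ k ∈ Finset.range K, per α (fun u => q (T^[k] w) (u - k)) x
          ≤ (K:ℝ)⁻¹ * ∑ k ∈ Finset.range K, (A / α + 1) := by
            gcongr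
            exact per_le hα hA (isq_bump hq _ _) _
        _ = A / α + 1 := by
            rw [Finset.sum_const, Finset.card_range, nsmul_eq_mul]; field_simp) (fun x y => by
      unfold av
      rw [← mul_sub, ← Finset.sum_sub_distrib, abs_mul, abs_of_pos (inv_pos.2 hK')]
      calc (K:ℝ)⁻¹ * |∑ k ∈ Finset.range K, (per α (fun u => q (T^[k] w) (u - k)) x -
            per α (fun u => q (T^[k] w) (u - k)) y)|
          ≤ (K:ℝ)⁻¹ * ∑ k ∈ Finset.range K, 2 * (A / α + 1) * (Λ * α) * |x - y| := by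
            gcongr
            refine (Finset.abs_sum_le_sum_abs _ _).trans (Finset.sum_le_sum fun k _ => ?_)
            exact per_lip hα hA hΛ (isq_bump hq _ _) _ _
        _ = 2 * (A / α + 1) * (Λ * α) * |x - y| := by
            rw [Finset.sum_const, Finset.card_range, nsmul_eq_mul]; field_simp) x
  have h1 := hF (fun _ => 1) (fun _ => rfl) (fun _ => by
      rw [abs_one]; have : 0 ≤ A / α := by positivity
      linarith) (fun x y => by simp; positivity) x
  simp_rw [av_coeff hΛ hA hq hα] at hav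
  simp only [Complex.ofReal_one, one_mul, int_ex] at h1
  have h2 : ((av T q α K w x : ℂ) - ((I / α : ℝ) : ℂ)) =
      ((av T q α K w x : ℂ) - ∑ m ∈ F, a m * (ex (m * x) * ((α:ℂ)⁻¹ *
        ta T (fq q (m / α)) (m / α) K w)))
      + (∑ m ∈ F, a m * (ex (m * x) * ((α:ℂ)⁻¹ * (ta T (fq q (m / α)) (m / α) K w -
        (if m = 0 then (I:ℂ) else 0)))))
      - ((I / α : ℝ) : ℂ) * (1 - ∑ m ∈ F, a m * (ex (m * x) * (if m = 0 then 1 else 0))) := by
    have h3 : (∑ m ∈ F, a m * (ex (m * x) * ((α:ℂ)⁻¹ * (ta T (fq q (m / α)) (m / α) K w -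
        (if m = 0 then (I:ℂ) else 0))))) = (∑ m ∈ F, a m * (ex (m * x) * ((α:ℂ)⁻¹ *
        ta T (fq q (m / α)) (m / α) K w))) -
        ((I / α : ℝ) : ℂ) * ∑ m ∈ F, a m * (ex (m * x) * (if m = 0 then 1 else 0)) := by
      rw [Finset.mul_sum, ← Finset.sum_sub_distrib]
      refine Finset.sum_congr rfl fun m _ => ?_
      split_ifs
      · push_cast; ring
      · ring
    rw [h3]; ring
  have h4 : av T q α K w x - I / α ≤ ‖((av T q α K w x : ℂ) - ((I / α : ℝ) : ℂ))‖ := by
    rw [← Complex.ofReal_sub, Complex.norm_real]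
    exact le_abs_self _
  have h5 : ‖((av T q α K w x : ℂ) - ((I / α : ℝ) : ℂ))‖ ≤
      ε' + (∑ m ∈ F, ‖a m‖ * α⁻¹ * tm μ T q A (m / α) K w) + |I| / α * ε' := by
    rw [h2]
    refine (norm_sub_le _ _).trans (add_le_add ((norm_add_le _ _).trans (add_le_add hav ?_)) ?_)
    · refine (norm_sum_le _ _).trans (Finset.sum_le_sum fun m _ => ?_)
      rw [norm_mul, norm_mul, norm_mul, norm_ex, one_mul, norm_inv, Complex.norm_real,
        Real.norm_eq_abs, abs_of_pos hα, mul_assoc]
      unfold tm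
      have h6 : (m:ℝ) / α = 0 ↔ m = 0 := by
        rw [div_eq_zero_iff]
        simp [hα.ne']
      simp only [h6]
      exact le_refl _
    · rw [norm_mul, Complex.norm_real, Real.norm_eq_abs, abs_div, abs_of_pos hα]
      gcongr
  have h7 : ε' + |I| / α * ε' = ε := by
    rw [hε']; field_simp
  linarith

end Pool.Agent.Helper59.HP
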