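import Pool.Agent.Helper59.HP.Twist

/-! Uniform approximation of periodic Lipschitz functions by trigonometric polynomials. -/

open Filter Topology MeasureTheory
open scoped NNReal ENNReal

namespace Pool.Agent.Helper59.HP

theorem fourier_ex (m : ℤ) (x : ℝ) : fourier m (x : UnitAddCircle) = ex (m * x) := by
  rw [fourier_coe_apply]
  unfold ex
  congr 1
  push_cast
  ring

/-- the tent around zero on the circle. -/
noncomputable def tent (η : ℝ) : C(UnitAddCircle, ℂ) :=
  ⟨fun x => ((max 0 (η - ‖x‖) : ℝ) : ℂ), by fun_prop⟩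

theorem tent_coe (η : ℝ) {t : ℝ} (ht : |t| ≤ 1 / 2) :
    tent η (t : UnitAddCircle) = ((max 0 (η - |t|) : ℝ) : ℂ) := by
  have h : ‖(t : UnitAddCircle)‖ = |t| := by
    rw [AddCircle.norm_coe_eq_abs_iff (1:ℝ) one_ne_zero]
    simpa using ht
  simp only [tent, ContinuousMap.coe_mk, h]

/-- trigonometric polynomials approximate the tent. -/
theorem exists_trig (f : C(UnitAddCircle, ℂ)) {ε : ℝ} (hε : 0 < ε) :
    ∃ (F : Finset ℤ) (a : ℤ → ℂ), ∀ t : ℝ,
      ‖f (t : UnitAddCircle) - ∑ m ∈ F, a m * ex (m * t)‖ ≤ ε := by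
  have hf : f ∈ (Submodule.span ℂ (Set.range (@fourier 1))).topologicalClosure := by
    rw [span_fourier_closure_eq_top]; trivial
  rw [← SetLike.mem_coe, Submodule.topologicalClosure_coe, Metric.mem_closure_iff] at hf
  obtain ⟨g, hg, hfg⟩ := hf ε hε
  rw [SetLike.mem_coe, Finsupp.mem_span_range_iff_exists_finsupp] at hg
  obtain ⟨c, hc⟩ := hg
  refine ⟨c.support, c, fun t => ?_⟩
  have h1 : g (t : UnitAddCircle) = ∑ m ∈ c.support, c m * ex (m * t) := by
    rw [← hc, Finsupp.sum]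
    simp only [ContinuousMap.coe_sum, ContinuousMap.coe_smul, Finset.sum_apply, Pi.smul_apply,
      smul_eq_mul, fourier_ex]
  rw [← h1, ← dist_eq_norm]
  exact (ContinuousMap.dist_apply_le_dist _).trans hfg.le

theorem kern {Λ B ε : ℝ} (hΛ : 0 ≤ Λ) (hB : 0 ≤ B) (hε : 0 < ε) :
    ∃ (F : Finset ℤ) (a : ℤ → ℂ), ∀ Q : ℝ → ℝ, (∀ x, Q (x + 1) = Q x) → (∀ x, |Q x| ≤ B) →
      (∀ x y, |Q x - Q y| ≤ Λ * |x - y|) → ∀ u : ℝ,
      ‖(Q u : ℂ) - ∑ m ∈ F, a m * (ex (m * u) * ∫ t in (0:ℝ)..1, (Q t : ℂ) * ex (-(m * t)))‖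
        ≤ ε := by
  -- choose the width
  obtain ⟨η, hη0, hη1, hη2⟩ : ∃ η : ℝ, 0 < η ∧ η ≤ 1 / 2 ∧ Λ * η ≤ ε / 2 := by
    refine ⟨min (1/2) (ε / (2 * (Λ + 1))), by positivity, min_le_left _ _, ?_⟩
    calc Λ * min (1/2) (ε / (2 * (Λ + 1))) ≤ Λ * (ε / (2 * (Λ + 1))) := by
          gcongr; exact min_le_right _ _
      _ ≤ ε / 2 := by
          rw [mul_div_assoc', div_le_div_iff₀ (by positivity) (by positivity)]
          nlinarith
  set g0 : ℝ → ℝ := fun t => max 0 (η - |t|) with hg0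
  have hg0c : Continuous g0 := by fun_prop
  have hg0n : ∀ t, 0 ≤ g0 t := fun t => le_max_left _ _
  set J : ℝ := ∫ t in (-(1/2:ℝ))..(1/2), g0 t with hJ
  have hJ0 : 0 < J := by
    rw [hJ]
    apply intervalIntegral.integral_pos (by norm_num) hg0c.continuousOn
    · intro x _; exact hg0n x
    · exact ⟨0, by constructor <;> norm_num, by simp [hg0, hη0]⟩
  -- the polynomial
  obtain ⟨F, a, ha⟩ := exists_trig ((J⁻¹ : ℂ) • tent η) (ε := ε / (2 * (B + 1))) (by positivity)
  refine ⟨F, a, fun Q hQ1 hQB hQL u => ?_⟩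
  have hQc : Continuous Q := by
    have : LipschitzWith (Real.toNNReal Λ) Q := by
      refine LipschitzWith.of_dist_le_mul fun x y => ?_
      rw [Real.dist_eq, Real.dist_eq, Real.coe_toNNReal _ hΛ]
      exact hQL x y
    exact this.continuous
  have hper : Function.Periodic Q 1 := hQ1
  -- the convolution with the polynomial
  have h1 : ∑ m ∈ F, a m * (ex (m * u) * ∫ t in (0:ℝ)..1, (Q t : ℂ) * ex (-(m * t)))
      = ∫ t in (-(1/2:ℝ))..(1/2), (Q (u - t) : ℂ) * ∑ m ∈ F, a m * ex (m * t) := by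
    have h2 : ∀ m ∈ F, a m * (ex (m * u) * ∫ t in (0:ℝ)..1, (Q t : ℂ) * ex (-(m * t)))
        = ∫ t in (-(1/2:ℝ))..(1/2), (Q (u - t) : ℂ) * (a m * ex (m * t)) := by
      intro m _
      have hp : Function.Periodic (fun t : ℝ => (Q t : ℂ) * ex (-(m * t))) 1 := by
        intro t
        simp only
        rw [hQ1 t, show -((m:ℝ) * (t + 1)) = -(m * t) + ((-m : ℤ) : ℝ) by push_cast; ring,
          ex_add, ex_int, mul_one]
      have h3 : ∫ t in (0:ℝ)..1, (Q t : ℂ) * ex (-(m * t))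
          = ∫ t in (u - 1/2)..(u + 1/2), (Q t : ℂ) * ex (-(m * t)) := by
        have := hp.intervalIntegral_add_eq 0 (u - 1/2)
        rw [zero_add] at this
        rw [this]
        congr 1; ring
      have h4 : ∫ t in (-(1/2:ℝ))..(1/2), (Q (u - t) : ℂ) * (a m * ex (m * t))
          = ∫ t in (u - 1/2)..(u + 1/2), (Q t : ℂ) * (a m * ex (m * (u - t))) := by
        have := intervalIntegral.integral_comp_sub_left
          (fun s : ℝ => (Q s : ℂ) * (a m * ex (m * (u - s)))) (a := -(1/2)) (b := 1/2) u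
        simp only [sub_sub_cancel, sub_neg_eq_add] at this
        exact this
      rw [h3, h4, ← intervalIntegral.integral_const_mul, ← intervalIntegral.integral_const_mul]
      refine intervalIntegral.integral_congr fun t _ => ?_
      rw [show (m:ℝ) * (u - t) = m * u + -(m * t) by ring, ex_add]
      ring
    rw [Finset.sum_congr rfl h2, ← intervalIntegral.integral_finsetSum]
    · refine intervalIntegral.integral_congr fun t _ => ?_
      rw [Finset.mul_sum]
    · intro m _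
      apply Continuous.intervalIntegrable
      have := continuous_ex
      fun_prop
  rw [h1]
  -- Q u as an integral
  have h5 : (Q u : ℂ) = ∫ t in (-(1/2:ℝ))..(1/2), (Q u : ℂ) * ((J⁻¹ * g0 t : ℝ) : ℂ) := by
    rw [intervalIntegral.integral_const_mul, intervalIntegral.integral_ofReal,
      intervalIntegral.integral_const_mul, ← hJ, inv_mul_cancel₀ hJ0.ne']
    simp
  rw [h5, ← intervalIntegral.integral_sub]
  rotate_left
  · apply Continuous.intervalIntegrable; fun_prop
  · apply Continuous.intervalIntegrable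
    have := continuous_ex
    fun_prop
  have hb : ∀ t ∈ Set.Icc (-(1/2:ℝ)) (1/2), ‖(Q u : ℂ) * ((J⁻¹ * g0 t : ℝ) : ℂ) -
      (Q (u - t) : ℂ) * ∑ m ∈ F, a m * ex (m * t)‖ ≤ Λ * η * (J⁻¹ * g0 t) + B * (ε / (2 * (B + 1))) := by
    intro t ht
    have ht' : |t| ≤ 1 / 2 := abs_le.2 ⟨by linarith [ht.1], ht.2⟩
    have h6 := ha t
    rw [ContinuousMap.coe_smul, Pi.smul_apply, tent_coe η ht', smul_eq_mul] at h6
    have h7 : (Q u : ℂ) * ((J⁻¹ * g0 t : ℝ) : ℂ) - (Q (u - t) : ℂ) * ∑ m ∈ F, a m * ex (m * t)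
        = ((Q u - Q (u - t) : ℝ) : ℂ) * ((J⁻¹ * g0 t : ℝ) : ℂ) + (Q (u - t) : ℂ) *
          ((J:ℂ)⁻¹ * ((max 0 (η - |t|) : ℝ) : ℂ) - ∑ m ∈ F, a m * ex (m * t)) := by
      simp only [hg0]; push_cast; ring
    rw [h7]
    refine (norm_add_le _ _).trans (add_le_add ?_ ?_)
    · rw [norm_mul, Complex.norm_real, Complex.norm_real, Real.norm_eq_abs, Real.norm_eq_abs,
        abs_of_nonneg (mul_nonneg (inv_nonneg.2 hJ0.le) (hg0n t))]
      by_cases hc : |t| ≤ η
      · refine mul_le_mul_of_nonneg_right ?_ (mul_nonneg (inv_nonneg.2 hJ0.le) (hg0n t))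
        refine (hQL _ _).trans ?_
        rw [sub_sub_cancel]
        gcongr
      · have : g0 t = 0 := by
          simp only [hg0]; exact max_eq_left (by linarith [not_le.1 hc])
        rw [this]; simp
    · rw [norm_mul, Complex.norm_real, Real.norm_eq_abs]
      exact mul_le_mul (hQB _) h6 (norm_nonneg _) hB
  have h8 : ‖∫ t in (-(1/2:ℝ))..(1/2), ((Q u : ℂ) * ((J⁻¹ * g0 t : ℝ) : ℂ) -
      (Q (u - t) : ℂ) * ∑ m ∈ F, a m * ex (m * t))‖
      ≤ ∫ t in (-(1/2:ℝ))..(1/2), (Λ * η * (J⁻¹ * g0 t) + B * (ε / (2 * (B + 1)))) := by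
    refine intervalIntegral.norm_integral_le_of_norm_le (by norm_num) ?_ ?_
    · refine Eventually.of_forall fun t ht => hb t ⟨ht.1.le, ht.2⟩
    · apply Continuous.intervalIntegrable; fun_prop
  refine h8.trans ?_
  rw [intervalIntegral.integral_add, intervalIntegral.integral_const_mul,
    intervalIntegral.integral_const_mul, ← hJ, inv_mul_cancel₀ hJ0.ne',
    intervalIntegral.integral_const]
  · have h9 : B * (ε / (2 * (B + 1))) ≤ ε / 2 := by
      rw [mul_div_assoc', div_le_div_iff₀ (by positivity) (by positivity)]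
      nlinarith
    simp only [smul_eq_mul]
    norm_num
    linarith
  · apply Continuous.intervalIntegrable; fun_prop
  · apply Continuous.intervalIntegrable; fun_prop

end Pool.Agent.Helper59.HP
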