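import Pool.Agent.Helper59.HP.Tm

/-! Sums of the weight along an orbit. -/

open Filter Topology MeasureTheory
open scoped NNReal ENNReal

namespace Pool.Agent.Helper59.HP

open Pool.Agent.Helper32.HP (IsQ JJ SQ)

variable {Ω : Type*} [MeasurableSpace Ω] {μ : Measure Ω} {T : Ω → Ω} {q : Ω → ℝ → ℝ} {Λ A : ℝ}

theorem SQ_eq (hq : IsQ q Λ A) (w : Ω) {y : ℝ} {K : ℕ} (hK : y ≤ K) :
    SQ T q w y = ∑ k ∈ Finset.range K, q (T^[k] w) (y - k) := by
  unfold SQ
  have h1 : ∑ k ∈ Finset.range (⌊y⌋₊ + 1), q (T^[k] w) (y - k) =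
      ∑ k ∈ Finset.range (max K (⌊y⌋₊ + 1)), q (T^[k] w) (y - k) := by
    apply Finset.sum_subset (Finset.range_mono (le_max_right _ _))
    intro k _ hk
    rw [Finset.mem_range, not_lt] at hk
    apply hq.s
    left
    have h2 := Nat.lt_floor_add_one y
    have h3 : ((⌊y⌋₊ + 1 : ℕ) : ℝ) ≤ k := by exact_mod_cast hk
    push_cast at h3
    linarith
  have h2 : ∑ k ∈ Finset.range K, q (T^[k] w) (y - k) =
      ∑ k ∈ Finset.range (max K (⌊y⌋₊ + 1)), q (T^[k] w) (y - k) := by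
    apply Finset.sum_subset (Finset.range_mono (le_max_left _ _))
    intro k _ hk
    rw [Finset.mem_range, not_lt] at hk
    apply hq.s
    left
    have h3 : (K : ℝ) ≤ k := by exact_mod_cast hk
    linarith
  rw [h1, h2]

theorem card_act (hA : 0 ≤ A) (y : ℝ) (K : ℕ) :
    (((Finset.range K).filter fun k : ℕ => 0 < y - k ∧ y - k < A).card : ℝ) ≤ A + 1 := by
  have h1 : ((Finset.range K).filter fun k : ℕ => 0 < y - k ∧ y - k < A) ⊆
      Finset.Icc ⌈y - A⌉₊ ⌊y⌋₊ := by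
    intro k hk
    rw [Finset.mem_filter] at hk
    rw [Finset.mem_Icc]
    constructor
    · apply Nat.ceil_le.2; linarith [hk.2.2]
    · apply Nat.le_floor; linarith [hk.2.1]
  have h2 := Finset.card_le_card h1
  rw [Nat.card_Icc] at h2
  rcases Finset.eq_empty_or_nonempty ((Finset.range K).filter fun k : ℕ => 0 < y - k ∧ y - k < A)
    with h | h
  · rw [h]; simp; linarith
  · obtain ⟨k, hk⟩ := h
    rw [Finset.mem_filter] at hk
    have hy : 0 ≤ y := by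
      have : (0:ℝ) ≤ k := Nat.cast_nonneg k
      linarith [hk.2.1]
    have h3 := Nat.floor_le hy
    have h4 := Nat.le_ceil (y - A)
    have h5 : (((⌊y⌋₊ + 1 - ⌈y - A⌉₊ : ℕ)) : ℝ) ≤ A + 1 := by
      rcases le_or_gt ⌈y - A⌉₊ (⌊y⌋₊ + 1) with h6 | h6
      · rw [Nat.cast_sub h6]; push_cast; linarith
      · rw [Nat.sub_eq_zero_of_le h6.le]; simp; linarith
    have h6 : ((((Finset.range K).filter fun k : ℕ => 0 < y - k ∧ y - k < A).card : ℕ) : ℝ) ≤
      ((⌊y⌋₊ + 1 - ⌈y - A⌉₊ : ℕ) : ℝ) := by exact_mod_cast h2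
    linarith

theorem SQ_nonneg (hq : IsQ q Λ A) (w : Ω) (y : ℝ) : 0 ≤ SQ T q w y :=
  Finset.sum_nonneg fun _ _ => hq.nn _ _

theorem SQ_le (hA : 0 ≤ A) (hq : IsQ q Λ A) (w : Ω) (y : ℝ) : SQ T q w y ≤ A + 1 := by
  unfold SQ
  rw [← Finset.sum_filter_add_sum_filter_not (Finset.range (⌊y⌋₊ + 1))
    (fun k : ℕ => 0 < y - k ∧ y - k < A)]
  have h1 : ∑ k ∈ (Finset.range (⌊y⌋₊ + 1)).filter (fun k : ℕ => ¬ (0 < y - k ∧ y - k < A)),
      q (T^[k] w) (y - k) = 0 := by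
    apply Finset.sum_eq_zero
    intro k hk
    rw [Finset.mem_filter, not_and_or, not_lt, not_lt] at hk
    exact hq.s _ _ hk.2
  rw [h1, add_zero]
  calc ∑ k ∈ (Finset.range (⌊y⌋₊ + 1)).filter (fun k : ℕ => 0 < y - k ∧ y - k < A),
        q (T^[k] w) (y - k)
      ≤ ∑ k ∈ (Finset.range (⌊y⌋₊ + 1)).filter (fun k : ℕ => 0 < y - k ∧ y - k < A), (1:ℝ) :=
        Finset.sum_le_sum fun k _ => hq.le1 _ _
    _ = (((Finset.range (⌊y⌋₊ + 1)).filter fun k : ℕ => 0 < y - k ∧ y - k < A).card : ℝ) := by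
        simp
    _ ≤ A + 1 := card_act hA _ _

theorem SQ_lip (hA : 0 ≤ A) (hΛ : 0 ≤ Λ) (hq : IsQ q Λ A) (w : Ω) (y y' : ℝ) :
    |SQ T q w y - SQ T q w y'| ≤ 2 * (A + 1) * Λ * |y - y'| := by
  classical
  obtain ⟨K, hK1, hK2⟩ : ∃ K : ℕ, y ≤ K ∧ y' ≤ K := by
    obtain ⟨K, hK⟩ := exists_nat_ge (max y y')
    exact ⟨K, (le_max_left _ _).trans hK, (le_max_right _ _).trans hK⟩
  rw [SQ_eq hq w hK1, SQ_eq hq w hK2, ← Finset.sum_sub_distrib]
  set P := (Finset.range K).filter fun k : ℕ => 0 < y - k ∧ y - k < A with hP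
  set P' := (Finset.range K).filter fun k : ℕ => 0 < y' - k ∧ y' - k < A with hP'
  have h1 : ∑ k ∈ Finset.range K, (q (T^[k] w) (y - k) - q (T^[k] w) (y' - k)) =
      ∑ k ∈ P ∪ P', (q (T^[k] w) (y - k) - q (T^[k] w) (y' - k)) := by
    symm
    apply Finset.sum_subset
    · exact Finset.union_subset (Finset.filter_subset _ _) (Finset.filter_subset _ _)
    · intro k hk1 hk2
      rw [Finset.mem_union, not_or, hP, hP', Finset.mem_filter, Finset.mem_filter] at hk2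
      have h2 : ¬ (0 < y - k ∧ y - k < A) := fun h => hk2.1 ⟨hk1, h⟩
      have h3 : ¬ (0 < y' - k ∧ y' - k < A) := fun h => hk2.2 ⟨hk1, h⟩
      rw [not_and_or, not_lt, not_lt] at h2 h3
      rw [hq.s _ _ h2, hq.s _ _ h3, sub_zero]
  rw [h1]
  have hc : ((P ∪ P').card : ℝ) ≤ 2 * (A + 1) := by
    have h2 : ((P ∪ P').card : ℝ) ≤ P.card + P'.card := by
      exact_mod_cast Finset.card_union_le _ _
    linarith [card_act hA y K, card_act hA y' K]
  calc |∑ k ∈ P ∪ P', (q (T^[k] w) (y - k) - q (T^[k] w) (y' - k))|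
      ≤ ∑ k ∈ P ∪ P', |q (T^[k] w) (y - k) - q (T^[k] w) (y' - k)| :=
        Finset.abs_sum_le_sum_abs _ _
    _ ≤ ∑ k ∈ P ∪ P', Λ * |y - y'| := by
        refine Finset.sum_le_sum fun k _ => (hq.l _ _ _).trans ?_
        rw [sub_sub_sub_cancel_right]
    _ = ((P ∪ P').card : ℝ) * (Λ * |y - y'|) := by rw [Finset.sum_const, nsmul_eq_mul]
    _ ≤ (2 * (A + 1)) * (Λ * |y - y'|) := by gcongr
    _ = _ := by ring

theorem SQ_shift (hq : IsQ q Λ A) (w : Ω) {y : ℝ} {j : ℕ} (hj : (j:ℝ) ≤ y - A) :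
    SQ T q w y = SQ T q (T^[j] w) (y - j) := by
  obtain ⟨K, hK⟩ := exists_nat_ge (y - j)
  have hK1 : y ≤ ((j + K : ℕ) : ℝ) := by push_cast; linarith
  rw [SQ_eq hq w hK1, SQ_eq hq (T^[j] w) hK, Finset.sum_range_add]
  have h1 : ∑ k ∈ Finset.range j, q (T^[k] w) (y - k) = 0 := by
    apply Finset.sum_eq_zero
    intro k hk
    apply hq.s
    right
    have : (k:ℝ) + 1 ≤ j := by exact_mod_cast Finset.mem_range.1 hk
    linarith
  rw [h1, zero_add]
  refine Finset.sum_congr rfl fun k _ => ?_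
  rw [← Function.iterate_add_apply, add_comm j k]
  congr 1
  push_cast; ring

theorem block_le (hq : IsQ q Λ A) {α : ℝ} (hα : 0 < α) (w : Ω) {v : ℝ}
    {L K : ℕ} (hK : v + L * α ≤ K) (hK0 : 0 < K) :
    ∑ i ∈ Finset.range L, SQ T q w (v + i * α) ≤ K * av T q α K w (v / α) := by
  classical
  have h1 : ∀ i ∈ Finset.range L, SQ T q w (v + i * α) =
      ∑ k ∈ Finset.range K, q (T^[k] w) (v + i * α - k) := by
    intro i hi
    apply SQ_eq hq
    have : (i:ℝ) ≤ L := by exact_mod_cast (Finset.mem_range.1 hi).le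
    nlinarith
  rw [Finset.sum_congr rfl h1, Finset.sum_comm]
  unfold av
  have hK' : (0:ℝ) < K := by exact_mod_cast hK0
  rw [mul_inv_cancel_left₀ hK'.ne']
  refine Finset.sum_le_sum fun k _ => ?_
  have hb := isq_bump hq (T^[k] w) k
  rw [per_eq hα hb (v / α) (pf α k A (v / α) ∪ (Finset.range L).image (fun i : ℕ => (i : ℤ)))
    Finset.subset_union_left]
  have h2 : ∑ i ∈ Finset.range L, q (T^[k] w) (v + i * α - k) =
      ∑ n ∈ (Finset.range L).image (fun i : ℕ => (i : ℤ)), q (T^[k] w) (α * (v / α + n) - k) := by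
    rw [Finset.sum_image (fun x _ y _ h => by exact_mod_cast h)]
    refine Finset.sum_congr rfl fun i _ => ?_
    congr 1
    push_cast
    field_simp
  rw [h2]
  exact Finset.sum_le_sum_of_subset_of_nonneg Finset.subset_union_right
    fun n _ _ => hq.nn _ _

/-- the block inequality at height `y`. -/
theorem block_y (hq : IsQ q Λ A) {α : ℝ} (hα : 0 < α) (w : Ω) {y : ℝ} (hy : A ≤ y)
    {L K : ℕ} (hK : A + 1 + L * α ≤ K) (hK0 : 0 < K) :
    ∑ i ∈ Finset.range L, SQ T q w (y + i * α) ≤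
      K * av T q α K (T^[⌊y - A⌋₊] w) ((y - ⌊y - A⌋₊) / α) := by
  have h1 := Nat.floor_le (show 0 ≤ y - A by linarith)
  have h2 := Nat.lt_floor_add_one (y - A)
  have h3 : ∀ i ∈ Finset.range L, SQ T q w (y + i * α) =
      SQ T q (T^[⌊y - A⌋₊] w) ((y - ⌊y - A⌋₊) + i * α) := by
    intro i _
    rw [SQ_shift hq w (j := ⌊y - A⌋₊)]
    · congr 1; ring
    · have : 0 ≤ (i:ℝ) * α := by positivity
      linarith
  rw [Finset.sum_congr rfl h3]
  apply block_le hq hα _ _ hK0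
  linarith

end Pool.Agent.Helper59.HP
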