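import Pool.Agent.Helper59.HP.Kern

/-! Periodisation of a compactly supported Lipschitz function. -/

open Filter Topology MeasureTheory
open scoped NNReal ENNReal

namespace Pool.Agent.Helper59.HP

/-- `f` takes values in `[0,1]`, is `Λ`-Lipschitz and vanishes outside of `(s, s + A)`. -/
structure Bump (f : ℝ → ℝ) (Λ s A : ℝ) : Prop where
  l : ∀ y y', |f y - f y'| ≤ Λ * |y - y'|
  nn : ∀ y, 0 ≤ f y
  le1 : ∀ y, f y ≤ 1
  s : ∀ y, y ≤ s ∨ s + A ≤ y → f y = 0

/-- the periodisation with step `α` in the variable `y / α`. -/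
noncomputable def per (α : ℝ) (f : ℝ → ℝ) (x : ℝ) : ℝ := ∑' n : ℤ, f (α * (x + n))

/-- the finite set of nonzero terms. -/
noncomputable def pf (α s A x : ℝ) : Finset ℤ := Finset.Icc ⌈s / α - x⌉ ⌊(s + A) / α - x⌋

theorem pf_card {α s A x : ℝ} (hα : 0 < α) (hA : 0 ≤ A) : ((pf α s A x).card : ℝ) ≤ A / α + 1 := by
  unfold pf
  rw [Int.card_Icc]
  have h1 := Int.floor_le ((s + A) / α - x)
  have h2 := Int.le_ceil (s / α - x)
  have h3 : (s + A) / α = s / α + A / α := add_div _ _ _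
  have h4 : (0:ℝ) ≤ A / α := by positivity
  rcases le_or_gt (⌊(s + A) / α - x⌋ + 1 - ⌈s / α - x⌉) 0 with h | h
  · rw [Int.toNat_of_nonpos h]; push_cast; linarith
  · have h5 : (((⌊(s + A) / α - x⌋ + 1 - ⌈s / α - x⌉).toNat : ℤ) : ℝ)
        = ((⌊(s + A) / α - x⌋ + 1 - ⌈s / α - x⌉ : ℤ) : ℝ) := by
      rw [Int.toNat_of_nonneg h.le]
    rw [Int.cast_natCast] at h5
    rw [h5]; push_cast; linarith

theorem not_pf {α s A x : ℝ} (hα : 0 < α) {f : ℝ → ℝ} {Λ : ℝ} (hf : Bump f Λ s A) {n : ℤ}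
    (hn : n ∉ pf α s A x) : f (α * (x + n)) = 0 := by
  apply hf.s
  unfold pf at hn
  rw [Finset.mem_Icc, not_and_or, not_le, not_le] at hn
  rcases hn with h | h
  · left
    have h1 := Int.lt_ceil.1 h
    have h2 : x + n ≤ s / α := by linarith
    calc α * (x + n) ≤ α * (s / α) := by gcongr
      _ = s := by field_simp
  · right
    have h1 := Int.floor_lt.1 h
    have h2 : (s + A) / α ≤ x + n := by linarith
    calc s + A = α * ((s + A) / α) := by field_simp
      _ ≤ α * (x + n) := by gcongr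

theorem per_eq {α s A : ℝ} (hα : 0 < α) {f : ℝ → ℝ} {Λ : ℝ} (hf : Bump f Λ s A) (x : ℝ)
    (F : Finset ℤ) (hF : pf α s A x ⊆ F) : per α f x = ∑ n ∈ F, f (α * (x + n)) := by
  unfold per
  exact tsum_eq_sum fun n hn => not_pf hα hf fun h => hn (hF h)

theorem per_add_one (α : ℝ) (f : ℝ → ℝ) (x : ℝ) : per α f (x + 1) = per α f x := by
  unfold per
  rw [← (Equiv.addRight (1:ℤ)).tsum_eq (fun n : ℤ => f (α * (x + n)))]
  refine tsum_congr fun n => ?_
  simp only [Equiv.coe_addRight]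
  push_cast
  congr 2; ring

theorem per_nonneg {α s A : ℝ} {f : ℝ → ℝ} {Λ : ℝ} (hf : Bump f Λ s A) (x : ℝ) :
    0 ≤ per α f x := tsum_nonneg fun _ => hf.nn _

theorem per_le {α s A : ℝ} (hα : 0 < α) (hA : 0 ≤ A) {f : ℝ → ℝ} {Λ : ℝ} (hf : Bump f Λ s A)
    (x : ℝ) : per α f x ≤ A / α + 1 := by
  rw [per_eq hα hf x _ (Finset.Subset.refl _)]
  calc ∑ n ∈ pf α s A x, f (α * (x + n)) ≤ ∑ n ∈ pf α s A x, (1:ℝ) :=
        Finset.sum_le_sum fun n _ => hf.le1 _
    _ = (pf α s A x).card := by simp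
    _ ≤ A / α + 1 := pf_card hα hA

theorem per_lip {α s A : ℝ} (hα : 0 < α) (hA : 0 ≤ A) {f : ℝ → ℝ} {Λ : ℝ} (hΛ : 0 ≤ Λ)
    (hf : Bump f Λ s A) (x y : ℝ) :
    |per α f x - per α f y| ≤ 2 * (A / α + 1) * (Λ * α) * |x - y| := by
  classical
  rw [per_eq hα hf x (pf α s A x ∪ pf α s A y) Finset.subset_union_left,
    per_eq hα hf y (pf α s A x ∪ pf α s A y) Finset.subset_union_right, ← Finset.sum_sub_distrib]
  calc |∑ n ∈ pf α s A x ∪ pf α s A y, (f (α * (x + n)) - f (α * (y + n)))|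
      ≤ ∑ n ∈ pf α s A x ∪ pf α s A y, |f (α * (x + n)) - f (α * (y + n))| :=
        Finset.abs_sum_le_sum_abs _ _
    _ ≤ ∑ n ∈ pf α s A x ∪ pf α s A y, Λ * α * |x - y| := by
        refine Finset.sum_le_sum fun n _ => (hf.l _ _).trans ?_
        rw [show α * (x + n) - α * (y + n) = α * (x - y) by ring, abs_mul, abs_of_pos hα,
          mul_assoc]
    _ = ((pf α s A x ∪ pf α s A y).card : ℝ) * (Λ * α * |x - y|) := by
        rw [Finset.sum_const, nsmul_eq_mul]
    _ ≤ (2 * (A / α + 1)) * (Λ * α * |x - y|) := by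
        have h1 : ((pf α s A x ∪ pf α s A y).card : ℝ) ≤ 2 * (A / α + 1) := by
          have h2 : ((pf α s A x ∪ pf α s A y).card : ℝ) ≤
              (pf α s A x).card + (pf α s A y).card := by
            exact_mod_cast Finset.card_union_le _ _
          linarith [pf_card (α := α) (s := s) (A := A) (x := x) hα hA,
            pf_card (α := α) (s := s) (A := A) (x := y) hα hA]
        gcongr
    _ = _ := by ring

theorem Bump.continuous {f : ℝ → ℝ} {Λ s A : ℝ} (hΛ : 0 ≤ Λ) (hf : Bump f Λ s A) :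
    Continuous f := by
  have : LipschitzWith (Real.toNNReal Λ) f := by
    refine LipschitzWith.of_dist_le_mul fun x y => ?_
    rw [Real.dist_eq, Real.dist_eq, Real.coe_toNNReal _ hΛ]
    exact hf.l x y
  exact this.continuous

theorem Bump.compact {f : ℝ → ℝ} {Λ s A : ℝ} (hf : Bump f Λ s A) : HasCompactSupport f := by
  refine HasCompactSupport.of_support_subset_isCompact (isCompact_Icc (a := s) (b := s + A)) ?_
  intro y hy
  by_contra h
  rw [Set.mem_Icc, not_and_or, not_le, not_le] at h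
  exact hy (hf.s y (h.imp le_of_lt le_of_lt))

/-- unfolding. -/
theorem unfold_int {f : ℝ → ℂ} (hf : Integrable f) :
    ∫ t in (0:ℝ)..1, (∑' n : ℤ, f (t + n)) = ∫ t, f t := by
  have h1 := hf.hasSum_intervalIntegral_comp_add_int
  have h2 := hf.norm.hasSum_intervalIntegral_comp_add_int
  simp_rw [intervalIntegral.integral_of_le zero_le_one] at h1 h2 ⊢
  have h3 := hasSum_integral_of_summable_integral_norm
    (μ := volume.restrict (Set.Ioc (0:ℝ) 1)) (F := fun (n : ℤ) (t : ℝ) => f (t + n))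
    (fun n => ((hf.comp_add_right (n:ℝ)).integrableOn)) h2.summable
  exact h3.unique h1

/-- Fourier coefficients of the periodisation. -/
theorem per_coeff {α s A : ℝ} (hα : 0 < α) {f : ℝ → ℝ} {Λ : ℝ} (hΛ : 0 ≤ Λ)
    (hf : Bump f Λ s A) (m : ℤ) :
    ∫ t in (0:ℝ)..1, (per α f t : ℂ) * ex (-(m * t))
      = (α:ℂ)⁻¹ * ∫ u, (f u : ℂ) * ex (-((m / α) * u)) := by
  have hc := hf.continuous hΛ
  have hcs := hf.compact
  have hex := continuous_ex
  set h : ℝ → ℂ := fun x => (f (α * x) : ℂ) * ex (-(m * x)) with hh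
  have hint : Integrable h := by
    apply Continuous.integrable_of_hasCompactSupport
    · rw [hh]; fun_prop
    · have h1 : HasCompactSupport fun x : ℝ => f (α * x) := by
        have := hcs.comp_homeomorph (Homeomorph.mulLeft₀ α hα.ne')
        exact this
      have h2 : HasCompactSupport fun x : ℝ => (f (α * x) : ℂ) :=
        h1.comp_left (g := fun y : ℝ => (y : ℂ)) (by simp)
      exact h2.mul_right
  have h3 := unfold_int hint
  have h4 : ∀ t : ℝ, (per α f t : ℂ) * ex (-(m * t)) = ∑' n : ℤ, h (t + n) := by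
    intro t
    unfold per
    rw [Complex.ofReal_tsum, ← tsum_mul_right]
    refine tsum_congr fun n => ?_
    rw [hh]
    simp only
    congr 1
    rw [show -((m:ℝ) * (t + n)) = -(m * t) + ((-(m * n) : ℤ) : ℝ) by push_cast; ring, ex_add,
      ex_int, mul_one]
  simp_rw [h4]
  rw [h3]
  have h5 := Measure.integral_comp_mul_left (fun u : ℝ => (f u : ℂ) * ex (-((m / α) * u))) α
  have h6 : ∀ x : ℝ, h x = (f (α * x) : ℂ) * ex (-((m / α) * (α * x))) := by
    intro x
    rw [hh]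
    simp only
    congr 2
    field_simp
  simp_rw [h6]
  rw [h5, abs_of_pos (inv_pos.2 hα), Complex.real_smul, Complex.ofReal_inv]

end Pool.Agent.Helper59.HP
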